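import Pool.Agent.RTA.Growth

/-!
Arms and pairs of arms as lists of lattice points.
-/

namespace Pool.Agent.RTA

open Pool.Agent.Hhelper14.SAW

/-- The arms. -/
def ArmZ (N : ℕ) : Set (List (ℤ × ℤ)) :=
  {R | R.head? = some o ∧ HChain R ∧ R.Nodup ∧ (∀ z ∈ R.dropLast, Hx N z) ∧ ∀ z ∈ R.getLast?, ¬ Hx N z}

/-- Avoiding pairs of arms. -/
def AvoidZ (N : ℕ) : Set (List (ℤ × ℤ) × List (ℤ × ℤ)) :=
  {q | q.1 ∈ ArmZ N ∧ q.2 ∈ ArmZ N ∧ ∀ z ∈ q.1.tail, z ∉ q.2}

lemma ArmZ.cases {N : ℕ} {R : List (ℤ × ℤ)} (h : R ∈ ArmZ N) :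
    ∃ t s s', R = t ++ [s, s'] ∧ R.headI = o ∧ (s, s') ∈ bdry N ∧ IsW (Hx N) s s' t.length R := by
  obtain ⟨h1, h2, h3, h4, h5⟩ := h
  obtain ⟨X, hX⟩ : ∃ X, R = o :: X := by
    cases R with
    | nil => simp at h1
    | cons a X => simp only [List.head?_cons, Option.some.injEq] at h1; exact ⟨X, by rw [h1]⟩
  have hXne : X ≠ [] := by
    rintro rfl
    apply h5 o (by rw [hX]; simp)
    exact hx_o N
  obtain ⟨Y, s', hY⟩ : ∃ Y s', X = Y ++ [s'] := ⟨X.dropLast, X.getLast hXne, (List.dropLast_append_getLast _).symm⟩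
  have hR : R = (o :: Y) ++ [s'] := by rw [hX, hY]; rfl
  obtain ⟨t, s, ht⟩ : ∃ t s, o :: Y = t ++ [s] :=
    ⟨(o :: Y).dropLast, (o :: Y).getLast (by simp), (List.dropLast_append_getLast _).symm⟩
  have hR2 : R = t ++ [s, s'] := by rw [hR, ht]; simp
  have hd : R.dropLast = t ++ [s] := by rw [hR, List.dropLast_concat, ht]
  have hs : Hx N s := h4 s (by rw [hd]; simp)
  have hs' : ¬ Hx N s' := h5 s' (by rw [hR2]; simp)
  have hadj : Adj s s' := by
    rw [hR2] at h2
    have := (List.isChain_append.1 h2).2.1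
    exact (List.isChain_cons_cons.1 this).1
  refine ⟨t, s, s', hR2, by rw [hX]; rfl, mem_bdry.2 ⟨hs, hadj, hs'⟩, ?_, h3, h2, t, hR2, ?_⟩
  · rw [hR2]; simp
  · intro x hx
    exact h4 x (by rw [hd]; exact hx)

lemma armF_of {N : ℕ} {R : List (ℤ × ℤ)} (h : R ∈ ArmZ N) :
    ∃ e ∈ bdry N, ∃ n ∈ Finset.range (Bn N), R ∈ armF N e n := by
  obtain ⟨t, s, s', hR, hh, hb, hW⟩ := ArmZ.cases h
  have hbd := bdry_bd hb
  refine ⟨(s, s'), hb, t.length, ?_, ?_⟩
  · rw [Finset.mem_range]
    by_contra hcon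
    rw [not_lt] at hcon
    have := sw_empty hbd t.length hcon
    have h2 := (mem_sw hbd t.length R).2 hW
    rw [this] at h2
    simp at h2
  · unfold armF
    rw [Finset.mem_filter, mem_sw hbd]
    exact ⟨hW, hh⟩

lemma armZ_of {N n : ℕ} {e : (ℤ × ℤ) × (ℤ × ℤ)} (he : e ∈ bdry N) {R : List (ℤ × ℤ)} (h : R ∈ armF N e n) :
    R ∈ ArmZ N := by
  have hb := bdry_bd he
  unfold armF at h
  rw [Finset.mem_filter, mem_sw hb] at h
  obtain ⟨⟨hl, hN, hC, t, ht, hpt⟩, hh⟩ := h
  refine ⟨?_, hC, hN, ?_, ?_⟩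
  · cases R with
    | nil => simp at hl
    | cons a X => simp only [List.headI_cons] at hh; rw [hh]; rfl
  · have : R.dropLast = t ++ [e.1] := by
      rw [ht]
      have e1 : t ++ [e.1, e.2] = (t ++ [e.1]) ++ [e.2] := by simp
      rw [e1, List.dropLast_concat]
    rw [this]; exact hpt
  · intro z hz
    rw [ht] at hz
    simp at hz
    rw [← hz]
    exact hb.out

/-- All arms. -/
noncomputable def armAll (N : ℕ) : Finset (List (ℤ × ℤ)) := by
  classical
  exact (bdry N).biUnion fun e => (Finset.range (Bn N)).biUnion fun n => armF N e n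

lemma mem_armAll {N : ℕ} {R : List (ℤ × ℤ)} : R ∈ armAll N ↔ R ∈ ArmZ N := by
  classical
  unfold armAll
  simp only [Finset.mem_biUnion]
  constructor
  · rintro ⟨e, he, n, hn, h⟩
    exact armZ_of he h
  · intro h
    exact armF_of h

/-- All paths through `o`. -/
noncomputable def pathAll (N : ℕ) : Finset (List (ℤ × ℤ)) := by
  classical
  exact (bdry N).biUnion fun e => (Finset.range (Bn N)).biUnion fun n => pathF N e n

lemma mem_pathAll {N : ℕ} {Q : List (ℤ × ℤ)} : Q ∈ pathAll N ↔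
    ∃ e ∈ bdry N, ∃ n ∈ Finset.range (Bn N), Q ∈ pathF N e n := by
  classical
  unfold pathAll
  simp only [Finset.mem_biUnion]

lemma isW_unique {p : ℤ × ℤ → Prop} {s s' q q' : ℤ × ℤ} {n m : ℕ} {P : List (ℤ × ℤ)}
    (h : IsW p s s' n P) (h' : IsW p q q' m P) : s = q ∧ s' = q' ∧ n = m := by
  obtain ⟨hl, -, -, t, ht, -⟩ := h
  obtain ⟨hl', -, -, t', ht', -⟩ := h'
  have h1 : t ++ [s, s'] = t' ++ [q, q'] := by rw [← ht, ht']
  have h2 := congrArg List.reverse h1
  simp only [List.reverse_append, List.reverse_cons, List.reverse_nil, List.nil_append, List.cons_append,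
    List.cons.injEq] at h2
  exact ⟨h2.2.1, h2.1, by omega⟩

lemma armF_length {N n : ℕ} {e : (ℤ × ℤ) × (ℤ × ℤ)} (he : e ∈ bdry N) {R : List (ℤ × ℤ)}
    (h : R ∈ armF N e n) : R.length = n + 2 := by
  unfold armF at h
  rw [Finset.mem_filter, mem_sw (bdry_bd he)] at h
  exact h.1.1

lemma pathF_length {N n : ℕ} {e : (ℤ × ℤ) × (ℤ × ℤ)} (he : e ∈ bdry N) {Q : List (ℤ × ℤ)}
    (h : Q ∈ pathF N e n) : Q.length = n + 3 := by
  unfold pathF at h
  simp only [Finset.mem_filter, mem_cn (bdry_bd he)] at h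
  obtain ⟨⟨⟨u, v, w, r, rfl, hP, -⟩, -⟩, -⟩ := h
  have := hP.1
  simp at this ⊢
  omega

lemma sum_armAll (N : ℕ) (f : List (ℤ × ℤ) → ℝ) :
    ∑ R ∈ armAll N, f R = ∑ e ∈ bdry N, ∑ n ∈ Finset.range (Bn N), ∑ R ∈ armF N e n, f R := by
  classical
  unfold armAll
  rw [Finset.sum_biUnion]
  · refine Finset.sum_congr rfl fun e he => ?_
    rw [Finset.sum_biUnion]
    intro n _ m _ hnm
    simp only [Function.onFun]
    rw [Finset.disjoint_left]
    intro R h1 h2
    have e1 := armF_length he h1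
    have e2 := armF_length he h2
    omega
  · intro e he e' he' hne
    simp only [Function.onFun]
    rw [Finset.disjoint_left]
    intro R h1 h2
    simp only [Finset.mem_biUnion] at h1 h2
    obtain ⟨n, -, h1⟩ := h1
    obtain ⟨m, -, h2⟩ := h2
    unfold armF at h1 h2
    rw [Finset.mem_filter, mem_sw (bdry_bd he)] at h1
    rw [Finset.mem_filter, mem_sw (bdry_bd he')] at h2
    have := isW_unique h1.1 h2.1
    exact hne (Prod.ext this.1 this.2.1)

lemma sum_pathAll (N : ℕ) (f : List (ℤ × ℤ) → ℝ) :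
    ∑ R ∈ pathAll N, f R = ∑ e ∈ bdry N, ∑ n ∈ Finset.range (Bn N), ∑ R ∈ pathF N e n, f R := by
  classical
  unfold pathAll
  rw [Finset.sum_biUnion]
  · refine Finset.sum_congr rfl fun e he => ?_
    rw [Finset.sum_biUnion]
    intro n _ m _ hnm
    simp only [Function.onFun]
    rw [Finset.disjoint_left]
    intro R h1 h2
    have e1 := pathF_length he h1
    have e2 := pathF_length he h2
    omega
  · intro e he e' he' hne
    simp only [Function.onFun]
    rw [Finset.disjoint_left]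
    intro R h1 h2
    simp only [Finset.mem_biUnion] at h1 h2
    obtain ⟨n, -, h1⟩ := h1
    obtain ⟨m, -, h2⟩ := h2
    unfold pathF at h1 h2
    simp only [Finset.mem_filter, mem_cn (bdry_bd he)] at h1
    simp only [Finset.mem_filter, mem_cn (bdry_bd he')] at h2
    obtain ⟨⟨⟨u, v, w, r, rfl, hP, -⟩, -⟩, -⟩ := h1
    obtain ⟨⟨⟨u', v', w', r', h3, hP', -⟩, -⟩, -⟩ := h2
    simp only [List.cons.injEq] at h3
    obtain ⟨-, rfl, rfl, rfl⟩ := h3
    have := isW_unique hP hP'
    exact hne (Prod.ext this.1 this.2.1)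

/-- Glueing two avoiding arms at `o`. -/
def glue (q : List (ℤ × ℤ) × List (ℤ × ℤ)) : List (ℤ × ℤ) := q.1.tail.reverse ++ q.2

lemma armZ_cons {N : ℕ} {R : List (ℤ × ℤ)} (h : R ∈ ArmZ N) : ∃ X, R = o :: X ∧ X ≠ [] := by
  obtain ⟨h1, h2, h3, h4, h5⟩ := h
  cases R with
  | nil => simp at h1
  | cons a X =>
    simp only [List.head?_cons, Option.some.injEq] at h1
    subst h1
    refine ⟨X, rfl, ?_⟩
    rintro rfl
    exact h5 _ (by simp) (hx_o N)

lemma glue_mem {N : ℕ} {q : List (ℤ × ℤ) × List (ℤ × ℤ)} (hq : q ∈ AvoidZ N) : glue q ∈ pathAll N := by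
  obtain ⟨w, R⟩ := q
  obtain ⟨hw, hR, hd⟩ := hq
  simp only at hw hR hd
  obtain ⟨X, rfl, hX⟩ := armZ_cons hw
  simp only [List.tail_cons] at hd
  unfold glue
  simp only [List.tail_cons]
  obtain ⟨Y, u, hY⟩ : ∃ Y u, X = Y ++ [u] := ⟨X.dropLast, X.getLast hX, (List.dropLast_append_getLast _).symm⟩
  subst hY
  obtain ⟨h1, h2, h3, h4, h5⟩ := hw
  obtain ⟨t, s, s', hRt, hh, hb, hW⟩ := ArmZ.cases hR
  have hbd := bdry_bd hb
  obtain ⟨X', rfl, hX'⟩ := armZ_cons hR
  have hu : ¬ Hx N u := h5 u (by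
    have e0 : o :: (Y ++ [u]) = (o :: Y) ++ [u] := rfl
    rw [e0, List.getLast?_concat]
    rfl)
  have hYH : ∀ x ∈ Y, Hx N x := by
    intro x hx
    apply h4
    have : (o :: (Y ++ [u])).dropLast = o :: Y := by
      have e1 : o :: (Y ++ [u]) = (o :: Y) ++ [u] := rfl
      rw [e1, List.dropLast_concat]
    rw [this]
    exact List.mem_cons_of_mem _ hx
  -- the chain
  have hrevC : HChain ((o :: (Y ++ [u])).reverse) :=
    List.isChain_reverse.2 (List.IsChain.imp (fun _ _ hh => hh.symm) h2)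
  have hcat : HChain ((Y ++ [u]).reverse ++ (o :: X')) := by
    have e1 : (o :: (Y ++ [u])).reverse = (Y ++ [u]).reverse ++ [o] := by simp
    rw [e1] at hrevC
    obtain ⟨c1, -, c3⟩ := List.isChain_append.1 hrevC
    refine List.isChain_append.2 ⟨c1, hW.2.2.1, ?_⟩
    intro x hx y hy
    exact c3 x hx y (by simpa using hy)
  have hnd : ((Y ++ [u]).reverse ++ (o :: X')).Nodup := by
    rw [List.nodup_append]
    refine ⟨List.nodup_reverse.2 (List.nodup_cons.1 h3).2, hW.2.1, ?_⟩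
    intro x hx y hy hxy
    subst hxy
    exact hd x (List.mem_reverse.1 hx) hy
  have e2 : (Y ++ [u]).reverse ++ (o :: X') = u :: (Y.reverse ++ (o :: X')) := by simp
  rw [e2] at hcat hnd ⊢
  have hWP : IsW (Hx N) s s' (Y.length + t.length) (Y.reverse ++ (o :: X')) := by
    refine ⟨?_, (List.nodup_cons.1 hnd).2, hcat.tail, Y.reverse ++ t, ?_, ?_⟩
    · have := hW.1
      simp only [List.length_append, List.length_reverse] at this ⊢
      omega
    · rw [hRt]; simp
    · intro x hx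
      have hx' : x ∈ Y ∨ x ∈ t ++ [s] := by
        simp only [List.mem_append, List.mem_reverse, List.mem_cons, List.not_mem_nil, or_false] at hx ⊢
        tauto
      rcases hx' with hx' | hx'
      · exact hYH x hx'
      · obtain ⟨-, -, -, t', ht', hpt'⟩ := hW
        rw [hRt] at ht'
        have := (List.append_inj' ht' rfl).1
        rw [this] at hx'
        exact hpt' x hx'
  obtain ⟨v, w, r, hvw, hadj', hv⟩ := hWP.cases
  refine mem_pathAll.2 ⟨(s, s'), hb, Y.length + t.length, ?_, ?_⟩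
  · rw [Finset.mem_range]
    by_contra hcon
    rw [not_lt] at hcon
    have := sw_empty hbd _ hcon
    have h2 := (mem_sw hbd _ _).2 hWP
    rw [this] at h2
    simp at h2
  · unfold pathF
    simp only [Finset.mem_filter, mem_cn hbd, List.headI_cons, List.tail_cons]
    refine ⟨⟨⟨u, v, w, r, by rw [hvw], by rw [← hvw]; exact hWP, ?_, ?_⟩, by simp⟩, hu⟩
    · rw [hvw] at hcat
      exact (List.isChain_cons_cons.1 hcat).1
    · rw [hvw] at hnd
      rintro rfl
      exact (List.nodup_cons.1 hnd).1 (by simp)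

lemma glue_surj {N : ℕ} {Q : List (ℤ × ℤ)} (hQ : Q ∈ pathAll N) : ∃ q ∈ AvoidZ N, glue q = Q := by
  obtain ⟨e, he, n, hn, hQ⟩ := mem_pathAll.1 hQ
  have hb := bdry_bd he
  unfold pathF at hQ
  simp only [Finset.mem_filter, mem_cn hb] at hQ
  obtain ⟨⟨⟨u, v, w, r, rfl, hP, hadj, huw⟩, ho⟩, hu⟩ := hQ
  simp only [List.headI_cons, List.tail_cons] at ho hu
  have hnd := exit_nodup hb hP hadj huw hu
  obtain ⟨hl, hN, hC, t, ht, hpt⟩ := hP
  have hch : HChain (u :: v :: w :: r) := List.isChain_cons_cons.2 ⟨hadj, hC⟩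
  obtain ⟨A, B, hAB⟩ := List.append_of_mem ho
  -- structure of `o :: B`
  obtain ⟨t1, ht1, hA⟩ : ∃ t1, o :: B = t1 ++ [e.1, e.2] ∧ t = A ++ t1 := by
    have h0 : A ++ o :: B = t ++ [e.1, e.2] := by rw [← hAB, ht]
    have hBne : B ≠ [] := by
      rintro rfl
      have h2 := congrArg List.getLast? h0
      simp at h2
      exact hb.out (h2 ▸ hx_o N)
    rcases List.append_eq_append_iff.1 h0 with ⟨c, hc1, hc2⟩ | ⟨c, hc1, hc2⟩
    · exact ⟨c, hc2, hc1⟩
    · have hc : c = [] := by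
        have h3 := congrArg List.length hc2
        have h4 : 0 < B.length := List.length_pos_of_ne_nil hBne
        simp at h3
        exact List.length_eq_zero_iff.1 (by omega)
      subst hc
      exact ⟨[], by simpa using hc2.symm, by simpa using hc1.symm⟩
  have hAH : ∀ x ∈ A, Hx N x := fun x hx => hpt x (by rw [hA]; simp [hx])
  have ht1H : ∀ x ∈ t1 ++ [e.1], Hx N x := fun x hx => hpt x (by
    rw [hA]
    simp only [List.append_assoc, List.mem_append] at hx ⊢
    exact Or.inr hx)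
  have hsp : u :: v :: w :: r = (u :: A) ++ (o :: B) := by rw [hAB]; rfl
  rw [hsp] at hch hnd
  have hoA : o ∉ u :: A := by
    intro hm
    exact (List.nodup_append.1 hnd).2.2 o hm o (by simp) rfl
  refine ⟨(o :: (u :: A).reverse, o :: B), ⟨⟨rfl, ?_, ?_, ?_, ?_⟩, ⟨rfl, ?_, ?_, ?_, ?_⟩, ?_⟩, ?_⟩
  · -- chain of the first arm
    have h1 : HChain ((u :: A) ++ [o]) := by
      have e1 : (u :: A) ++ (o :: B) = ((u :: A) ++ [o]) ++ B := by simp
      rw [e1] at hch
      exact (List.isChain_append.1 hch).1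
    have h2 : HChain (((u :: A) ++ [o]).reverse) :=
      List.isChain_reverse.2 (List.IsChain.imp (fun _ _ hh => hh.symm) h1)
    have e2 : ((u :: A) ++ [o]).reverse = o :: (u :: A).reverse := by simp
    rwa [e2] at h2
  · refine List.nodup_cons.2 ⟨fun hm => hoA (List.mem_reverse.1 hm), ?_⟩
    exact List.nodup_reverse.2 (List.nodup_append.1 hnd).1
  · intro z hz
    have e1 : (o :: (u :: A).reverse).dropLast = o :: A.reverse := by
      have : o :: (u :: A).reverse = (o :: A.reverse) ++ [u] := by simp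
      rw [this, List.dropLast_concat]
    rw [e1] at hz
    rcases List.mem_cons.1 hz with e | hz
    · rw [e]; exact hx_o N
    · exact hAH z (List.mem_reverse.1 hz)
  · intro z hz
    have : o :: (u :: A).reverse = (o :: A.reverse) ++ [u] := by simp
    rw [this, List.getLast?_concat] at hz
    have hz' : u = z := by simpa using hz
    rw [← hz']; exact hu
  · exact (List.isChain_append.1 hch).2.1
  · exact (List.nodup_append.1 hnd).2.1
  · intro z hz
    have e1 : (o :: B).dropLast = t1 ++ [e.1] := by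
      rw [ht1]
      have : t1 ++ [e.1, e.2] = (t1 ++ [e.1]) ++ [e.2] := by simp
      rw [this, List.dropLast_concat]
    rw [e1] at hz
    exact ht1H z hz
  · intro z hz
    rw [ht1] at hz
    simp at hz
    rw [← hz]; exact hb.out
  · intro z hz hz'
    simp only [List.tail_cons] at hz
    exact (List.nodup_append.1 hnd).2.2 z (List.mem_reverse.1 hz) z hz' rfl
  · unfold glue
    simp only [List.tail_cons, List.reverse_reverse]
    exact hsp.symm

lemma glue_inj (N : ℕ) : Set.InjOn glue (AvoidZ N) := by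
  rintro ⟨w, R⟩ hq ⟨w', R'⟩ hq' h
  obtain ⟨hw, hR, hd⟩ := hq
  obtain ⟨hw', hR', hd'⟩ := hq'
  simp only at hw hR hd hw' hR' hd'
  have nw := hw.2.2.1
  have nw' := hw'.2.2.1
  obtain ⟨X, rfl, -⟩ := armZ_cons hw
  obtain ⟨X', rfl, -⟩ := armZ_cons hw'
  obtain ⟨Y, rfl, -⟩ := armZ_cons hR
  obtain ⟨Y', rfl, -⟩ := armZ_cons hR'
  unfold glue at h
  simp only [List.tail_cons] at h
  have ho : ∀ a ∈ X.reverse, (fun x => decide (x ≠ o)) a = true := by
    intro a ha
    simp only [ne_eq, decide_not, Bool.not_eq_eq_eq_not, Bool.not_true, decide_eq_false_iff_not]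
    rintro rfl
    exact (List.nodup_cons.1 nw).1 (List.mem_reverse.1 ha)
  have ho' : ∀ a ∈ X'.reverse, (fun x => decide (x ≠ o)) a = true := by
    intro a ha
    simp only [ne_eq, decide_not, Bool.not_eq_eq_eq_not, Bool.not_true, decide_eq_false_iff_not]
    rintro rfl
    exact (List.nodup_cons.1 nw').1 (List.mem_reverse.1 ha)
  have h1 := congrArg (List.takeWhile (fun x => decide (x ≠ o))) h
  have h2 := congrArg (List.dropWhile (fun x => decide (x ≠ o))) h
  rw [List.takeWhile_append_of_pos ho, List.takeWhile_append_of_pos ho'] at h1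
  rw [List.dropWhile_append_of_pos ho, List.dropWhile_append_of_pos ho'] at h2
  simp at h1 h2
  rw [h1, h2]

lemma glue_image (N : ℕ) : glue '' (AvoidZ N) = ↑(pathAll N) := by
  ext Q
  constructor
  · rintro ⟨q, hq, rfl⟩
    exact glue_mem hq
  · intro h
    exact glue_surj h

lemma glue_length {N : ℕ} {q : List (ℤ × ℤ) × List (ℤ × ℤ)} (hq : q ∈ AvoidZ N) :
    (glue q).length - 1 = (q.1.length - 1) + (q.2.length - 1) := by
  obtain ⟨X, h1, -⟩ := armZ_cons hq.1
  obtain ⟨Y, h2, -⟩ := armZ_cons hq.2.1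
  unfold glue
  rw [h1, h2]
  simp

/-- The masses as sums over sets. -/
lemma Z1_tsum (N : ℕ) : ∑' R : ArmZ N, xc ^ (R.1.length - 1) = Z1 N := by
  have h : ArmZ N = ↑(armAll N) := by ext R; exact mem_armAll.symm
  rw [h, Finset.tsum_subtype' (armAll N) (fun R => xc ^ (R.length - 1)), sum_armAll]
  unfold Z1
  refine Finset.sum_congr rfl fun e he => Finset.sum_congr rfl fun n _ => Finset.sum_congr rfl fun R hR => ?_
  rw [armF_length he hR]
  congr 1

lemma U1_tsum (N : ℕ) : ∑' R : ArmZ N, xc ^ (R.1.length - 1) * Real.cos (Tn R.1 * (Real.pi / 8)) = U1 N := by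
  have h : ArmZ N = ↑(armAll N) := by ext R; exact mem_armAll.symm
  rw [h, Finset.tsum_subtype' (armAll N)
    (fun R => xc ^ (R.length - 1) * Real.cos (Tn R * (Real.pi / 8))), sum_armAll]
  unfold U1
  refine Finset.sum_congr rfl fun e he => Finset.sum_congr rfl fun n _ => Finset.sum_congr rfl fun R hR => ?_
  rw [armF_length he hR]
  congr 1

lemma Z2_tsum (N : ℕ) : ∑' q : AvoidZ N, xc ^ (q.1.1.length - 1) * xc ^ (q.1.2.length - 1) = Z2 N := by
  have h1 : ∑' q : AvoidZ N, xc ^ (q.1.1.length - 1) * xc ^ (q.1.2.length - 1) =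
      ∑' q : AvoidZ N, xc ^ ((glue q.1).length - 1) := by
    refine tsum_congr fun q => ?_
    rw [glue_length q.2, pow_add]
  rw [h1, ← tsum_image (fun Q : List (ℤ × ℤ) => xc ^ (Q.length - 1)) (glue_inj N), glue_image,
    Finset.tsum_subtype' (pathAll N) (fun R => xc ^ (R.length - 1)), sum_pathAll]
  unfold Z2
  refine Finset.sum_congr rfl fun e he => Finset.sum_congr rfl fun n _ => Finset.sum_congr rfl fun R hR => ?_
  rw [pathF_length he hR]
  congr 1

end Pool.Agent.RTA
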