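import Pool.Agent.RTA.Geo
import Pool.Agent.Hhelper14.SAW.Strip

/-!
Summation over the boundary edges of the hexagon.
-/

namespace Pool.Agent.RTA

open Pool.Agent.Hhelper14.SAW

/-- The box containing the hexagon and its neighbours. -/
noncomputable def box (N : ℕ) : Finset (ℤ × ℤ) :=
  (Finset.Icc (-(3 * N + 3 : ℤ)) (3 * N + 3)) ×ˢ (Finset.Icc (-(3 * N + 3 : ℤ)) (3 * N + 3))

lemma near_box {N : ℕ} {x : ℤ × ℤ} (h : Near N x) : x ∈ box N := by
  have := near_le h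
  simp only [F0, F1, F2, F3, F4, F5] at this
  unfold box
  rw [Finset.mem_product, Finset.mem_Icc, Finset.mem_Icc]
  omega

/-- Bound for the number of steps. -/
noncomputable def Bn (N : ℕ) : ℕ := (box N).card

lemma sw_empty {N : ℕ} {s s' : ℤ × ℤ} (hb : Bd (Hx N) s s') (n : ℕ) (hn : Bn N ≤ n) :
    sw (Hx N) s s' n = ∅ := by
  rw [Finset.eq_empty_iff_forall_notMem]
  intro P hP
  rw [mem_sw hb] at hP
  obtain ⟨h1, h2, h3, t, h4, h5⟩ := hP
  have hN : (t ++ [s]).Nodup := by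
    have : ((t ++ [s]) ++ [s']).Nodup := by simpa [h4] using h2
    exact (List.nodup_append.1 this).1
  have hlen : (t ++ [s]).length = n + 1 := by
    rw [h4] at h1; simp at h1 ⊢; omega
  have hsub : (t ++ [s]).toFinset ⊆ box N := by
    intro x hx
    exact near_box (Or.inl (h5 x (List.mem_toFinset.1 hx)))
  have hc := Finset.card_le_card hsub
  rw [List.toFinset_card_of_nodup hN, hlen] at hc
  unfold Bn at hn
  omega

open Classical in
/-- The boundary edges `(s, s')`. -/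
noncomputable def bdry (N : ℕ) : Finset ((ℤ × ℤ) × (ℤ × ℤ)) :=
  ((box N) ×ˢ (box N)).filter (fun e => Hx N e.1 ∧ Adj e.1 e.2 ∧ ¬ Hx N e.2)

lemma mem_bdry {N : ℕ} {e : (ℤ × ℤ) × (ℤ × ℤ)} : e ∈ bdry N ↔ Hx N e.1 ∧ Adj e.1 e.2 ∧ ¬ Hx N e.2 := by
  classical
  unfold bdry
  rw [Finset.mem_filter]
  constructor
  · exact fun h => h.2
  · intro h
    refine ⟨?_, h⟩
    rw [Finset.mem_product]
    exact ⟨near_box (Or.inl h.1), near_box (Or.inr ⟨h.2.2, e.1, h.1, h.2.1.symm⟩)⟩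

lemma bdry_bd {N : ℕ} {e : (ℤ × ℤ) × (ℤ × ℤ)} (h : e ∈ bdry N) : Bd (Hx N) e.1 e.2 := by
  rw [mem_bdry] at h
  exact hx_bd h.1 h.2.1 h.2.2

lemma hx_o (N : ℕ) : Hx N o := by
  unfold Hx
  refine ⟨by decide, ?_, ?_, ?_, ?_, ?_, ?_⟩ <;> simp only [F0, F1, F2, F3, F4, F5, o] <;> omega

/-- The arms with boundary edge `e` and `n` further steps. -/
noncomputable def armF (N : ℕ) (e : (ℤ × ℤ) × (ℤ × ℤ)) (n : ℕ) : Finset (List (ℤ × ℤ)) :=
  (sw (Hx N) e.1 e.2 n).filter (fun P => P.headI = o)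

/-- The paths through `o` with boundary edge `e`. -/
noncomputable def pathF (N : ℕ) (e : (ℤ × ℤ) × (ℤ × ℤ)) (n : ℕ) : Finset (List (ℤ × ℤ)) :=
  ((cn (Hx N) e.1 e.2 n).filter (fun Q => o ∈ Q.tail)).filter (fun Q => ¬ Hx N Q.headI)

/-- Mass of the arms. -/
noncomputable def Z1 (N : ℕ) : ℝ :=
  ∑ e ∈ bdry N, ∑ n ∈ Finset.range (Bn N), ∑ _P ∈ armF N e n, xc ^ (n + 1)

/-- Mass of the arms weighted by the turning. -/
noncomputable def U1 (N : ℕ) : ℝ :=
  ∑ e ∈ bdry N, ∑ n ∈ Finset.range (Bn N), ∑ P ∈ armF N e n, xc ^ (n + 1) * Real.cos (Tn P * (Real.pi / 8))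

/-- Mass of the paths through `o`. -/
noncomputable def Z2 (N : ℕ) : ℝ :=
  ∑ e ∈ bdry N, ∑ n ∈ Finset.range (Bn N), ∑ _Q ∈ pathF N e n, xc ^ (n + 2)

lemma U1_eq (N : ℕ) : U1 N = ∑ e ∈ bdry N, ∑ n ∈ Finset.range (Bn N), ∑ Q ∈ pathF N e n,
    xc ^ (n + 2) * Real.cos (Tn Q * (Real.pi / 8)) := by
  unfold U1
  refine Finset.sum_congr rfl fun e he => ?_
  have hb := bdry_bd he
  have h := marked (z := o) (hx_o N) hb (sw_empty hb)
  have h2 := congrArg (fun c : ℂ => xc * c.re) h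
  simp only [Complex.re_sum, Az, Ez] at h2
  rw [Finset.mul_sum, Finset.mul_sum] at h2
  calc ∑ n ∈ Finset.range (Bn N), ∑ P ∈ armF N e n, xc ^ (n + 1) * Real.cos (Tn P * (Real.pi / 8))
      = ∑ n ∈ Finset.range (Bn N), xc * ((xc : ℂ) ^ n *
          ∑ P ∈ (sw (Hx N) e.1 e.2 n).filter (fun P => P.headI = o), zt (Tn P)).re := by
        refine Finset.sum_congr rfl fun n _ => ?_
        have : ((xc : ℂ) ^ n) = ((xc ^ n : ℝ) : ℂ) := by push_cast; ring
        rw [this, Complex.re_ofReal_mul, Complex.re_sum, Finset.mul_sum, Finset.mul_sum]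
        unfold armF
        refine Finset.sum_congr rfl fun P _ => ?_
        rw [zt_re]; ring
    _ = _ := h2
    _ = _ := by
        refine Finset.sum_congr rfl fun n _ => ?_
        have : ((xc : ℂ) ^ (n + 1)) = ((xc ^ (n + 1) : ℝ) : ℂ) := by push_cast; ring
        rw [this, Complex.re_ofReal_mul, Complex.re_sum, Finset.mul_sum, Finset.mul_sum]
        unfold pathF
        refine Finset.sum_congr rfl fun P _ => ?_
        rw [zt_re]; ring

lemma cos_le {k : ℤ} (h1 : -3 ≤ k) (h2 : k ≤ 3) :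
    Real.cos (3 * Real.pi / 8) ≤ Real.cos (k * (Real.pi / 8)) := by
  rw [← Real.cos_abs (k * (Real.pi / 8))]
  have h3 : |(k : ℝ)| ≤ 3 := by
    rw [abs_le]
    exact ⟨by exact_mod_cast h1, by exact_mod_cast h2⟩
  refine Real.cos_le_cos_of_nonneg_of_le_pi (abs_nonneg _) ?_ ?_
  · nlinarith [Real.pi_pos]
  · rw [abs_mul, abs_of_pos (show 0 < Real.pi / 8 by positivity)]
    nlinarith [Real.pi_pos]

lemma path_turn {N : ℕ} {e : (ℤ × ℤ) × (ℤ × ℤ)} (he : e ∈ bdry N) {n : ℕ} {Q : List (ℤ × ℤ)}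
    (hQ : Q ∈ pathF N e n) : -3 ≤ Tn Q ∧ Tn Q ≤ 3 := by
  have hb := bdry_bd he
  unfold pathF at hQ
  simp only [Finset.mem_filter, mem_cn hb] at hQ
  obtain ⟨⟨⟨u, v, w, r, rfl, hP, hadj, huw⟩, -⟩, hu⟩ := hQ
  exact turn_le hb hP hadj huw hu

/-- The two-sided comparison. -/
theorem compare (N : ℕ) : Real.cos (3 * Real.pi / 8) * Z2 N ≤ U1 N ∧ U1 N ≤ Z2 N := by
  have hx := xc_pos
  rw [U1_eq]
  unfold Z2
  constructor
  · rw [Finset.mul_sum]
    refine Finset.sum_le_sum fun e he => ?_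
    rw [Finset.mul_sum]
    refine Finset.sum_le_sum fun n _ => ?_
    rw [Finset.mul_sum]
    refine Finset.sum_le_sum fun Q hQ => ?_
    have h := path_turn he hQ
    have h2 := cos_le h.1 h.2
    rw [mul_comm]
    exact mul_le_mul_of_nonneg_left h2 (by positivity)
  · refine Finset.sum_le_sum fun e he => Finset.sum_le_sum fun n _ => Finset.sum_le_sum fun Q hQ => ?_
    have h := Real.cos_le_one (Tn Q * (Real.pi / 8))
    have h2 : 0 ≤ xc ^ (n + 2) := by positivity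
    nlinarith

lemma U1_le (N : ℕ) : U1 N ≤ Z1 N := by
  have hx := xc_pos
  unfold U1 Z1
  refine Finset.sum_le_sum fun e he => Finset.sum_le_sum fun n _ => Finset.sum_le_sum fun P _ => ?_
  have h := Real.cos_le_one (Tn P * (Real.pi / 8))
  have h2 : 0 ≤ xc ^ (n + 1) := by positivity
  nlinarith

end Pool.Agent.RTA
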