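import Pool.Agent.Hhelper14.SAW.Defs

/-!
Critical self-avoiding walks on the honeycomb lattice stopped when they leave a regular hexagon.
-/

namespace Pool.Agent.RTA.Radial

open Pool.Agent.Hhelper14.Honeycomb

/-- The vertices of the honeycomb lattice in the regular hexagon with centre `0` and inner radius
`(3N+1)/2`. -/
def Hex (N : ℕ) : Set ℂ := {z | z ∈ V ∧ ∀ k : ℕ, (z * omega ^ k).re ≤ (3 * N + 1) / 2}

/-- The arms of radius `N`: self-avoiding paths `w = (w_0, ..., w_m)` (written as lists) of the honeycomb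
lattice with `w_0 = 0`, with `w_0, ..., w_{m-1}` in `Hex N` and `w_m` outside `Hex N`. -/
def Arm (N : ℕ) : Set (List ℂ) :=
  {w | w.head? = some 0 ∧ (∀ z ∈ w, z ∈ V) ∧ w.IsChain (fun x y => dist x y = 1) ∧ w.Nodup ∧
    (∀ z ∈ w.dropLast, z ∈ Hex N) ∧ ∀ z ∈ w.getLast?, z ∉ Hex N}

/-- The critical weight `x ^ m`, `x = 1 / μ_L`, of a path with `m` steps. -/
noncomputable def wt (w : List ℂ) : ℝ := (1 / muL) ^ (w.length - 1)

/-- The total weight of the arms of radius `N`. -/
noncomputable def Z (N : ℕ) : ℝ := ∑' w : Arm N, wt w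

/-- The pairs `(w, w')` of arms with `w{1,...} ∩ w'{0,...} = ∅`. -/
def Avoid (N : ℕ) : Set (List ℂ × List ℂ) :=
  {q | q.1 ∈ Arm N ∧ q.2 ∈ Arm N ∧ ∀ z ∈ q.1.tail, z ∉ q.2}

/-- The probability that `w{1,...}` and `w'{0,...}` are disjoint, for two independent arms of radius `N`
chosen with probability proportional to their weight. -/
noncomputable def Prob (N : ℕ) : ℝ := (∑' q : Avoid N, wt q.1.1 * wt q.1.2) / (Z N * Z N)

/-- The total turning (in radians, left turns positive) of a path. -/
noncomputable def turn : List ℂ → ℝ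
  | a :: b :: c :: r => Complex.arg ((c - b) / (b - a)) + turn (b :: c :: r)
  | _ => 0

/-- The expectation of `cos (3/8 W)`, `W` the total turning of an arm of radius `N` chosen with
probability proportional to its weight. -/
noncomputable def E (N : ℕ) : ℝ := (∑' w : Arm N, wt w * Real.cos (3 / 8 * turn w)) / Z N

end Pool.Agent.RTA.Radial
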