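import Pool.Agent.RTA.Ident

/-!
Regular hexagons of the honeycomb lattice and the turning of paths from boundary to boundary.
-/

namespace Pool.Agent.RTA

open Pool.Agent.Hhelper14.SAW

/-- The lattice points of the regular hexagon with inner radius `(3N+1)/2`. -/
def Hx (N : ℕ) (z : ℤ × ℤ) : Prop :=
  hon z ∧ F0 z ≤ 3 * N + 1 ∧ F1 z ≤ 3 * N + 1 ∧ F2 z ≤ 3 * N + 1 ∧ F3 z ≤ 3 * N + 1 ∧ F4 z ≤ 3 * N + 1 ∧
    F5 z ≤ 3 * N + 1

instance (N : ℕ) : DecidablePred (Hx N) := fun z => by unfold Hx; infer_instance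

/-- Which exits are possible. -/
lemma exit6 {N : ℕ} {u v : ℤ × ℤ} (hv : Hx N v) (hadj : Adj u v) (hu : ¬ Hx N u) :
    (F0 u = 3 * N + 3 ∧ u - v = (1, 0)) ∨ (F1 u = 3 * N + 2 ∧ u - v = (0, 1)) ∨
    (F2 u = 3 * N + 3 ∧ u - v = (-1, 1)) ∨ (F3 u = 3 * N + 2 ∧ u - v = (-1, 0)) ∨
    (F4 u = 3 * N + 3 ∧ u - v = (0, -1)) ∨ (F5 u = 3 * N + 2 ∧ u - v = (1, -1)) := by
  obtain ⟨hu1, hv1, hU⟩ := hadj
  obtain ⟨-, g0, g1, g2, g3, g4, g5⟩ := hv
  have hu2 : ¬ (F0 u ≤ 3 * N + 1 ∧ F1 u ≤ 3 * N + 1 ∧ F2 u ≤ 3 * N + 1 ∧ F3 u ≤ 3 * N + 1 ∧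
      F4 u ≤ 3 * N + 1 ∧ F5 u ≤ 3 * N + 1) := fun h => hu ⟨hu1, h⟩
  clear hu
  obtain ⟨a, b⟩ := u
  obtain ⟨x, y⟩ := v
  simp only [hon, U, F0, F1, F2, F3, F4, F5, Prod.mk_sub_mk, Prod.mk.injEq] at *
  rcases hU with hU | hU | hU | hU | hU | hU
  · have e1 : a = x + 1 := by omega
    have e2 : b = y := by omega
    subst e1 e2
    left; omega
  · have e1 : a = x := by omega
    have e2 : b = y + 1 := by omega
    subst e1 e2
    right; left; omega
  · have e1 : a = x - 1 := by omega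
    have e2 : b = y + 1 := by omega
    subst e1 e2
    right; right; left; omega
  · have e1 : a = x - 1 := by omega
    have e2 : b = y := by omega
    subst e1 e2
    right; right; right; left; omega
  · have e1 : a = x := by omega
    have e2 : b = y - 1 := by omega
    subst e1 e2
    right; right; right; right; left; omega
  · have e1 : a = x + 1 := by omega
    have e2 : b = y - 1 := by omega
    subst e1 e2
    right; right; right; right; right; omega

lemma cw0 {z : ℤ × ℤ} (hz : NZ z) (h : F0 z ≤ 0) : (sec z - 1) % 6 ≤ 3 := by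
  obtain ⟨a, b⟩ := z
  simp only [NZ, F0] at *
  unfold sec
  split_ifs <;> omega
lemma cw1 {z : ℤ × ℤ} (hz : NZ z) (h : F1 z ≤ 0) : (sec z - 2) % 6 ≤ 3 := by
  obtain ⟨a, b⟩ := z
  simp only [NZ, F1] at *
  unfold sec
  split_ifs <;> omega
lemma cw2 {z : ℤ × ℤ} (hz : NZ z) (h : F2 z ≤ 0) : (sec z - 3) % 6 ≤ 3 := by
  obtain ⟨a, b⟩ := z
  simp only [NZ, F2] at *
  unfold sec
  split_ifs <;> omega
lemma cw3 {z : ℤ × ℤ} (hz : NZ z) (h : F3 z ≤ 0) : (sec z - 4) % 6 ≤ 3 := by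
  obtain ⟨a, b⟩ := z
  simp only [NZ, F3] at *
  unfold sec
  split_ifs <;> omega
lemma cw4 {z : ℤ × ℤ} (hz : NZ z) (h : F4 z ≤ 0) : (sec z - 5) % 6 ≤ 3 := by
  obtain ⟨a, b⟩ := z
  simp only [NZ, F4] at *
  unfold sec
  split_ifs <;> omega
lemma cw5 {z : ℤ × ℤ} (hz : NZ z) (h : F5 z ≤ 0) : (sec z - 0) % 6 ≤ 3 := by
  obtain ⟨a, b⟩ := z
  simp only [NZ, F5] at *
  unfold sec
  split_ifs <;> omega

/-- A vertex is either in the hexagon or just outside. -/
def Near (N : ℕ) (x : ℤ × ℤ) : Prop := Hx N x ∨ (¬ Hx N x ∧ ∃ y, Hx N y ∧ Adj x y)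

lemma near_le {N : ℕ} {x : ℤ × ℤ} (h : Near N x) :
    F0 x ≤ 3 * N + 3 ∧ F1 x ≤ 3 * N + 2 ∧ F2 x ≤ 3 * N + 3 ∧ F3 x ≤ 3 * N + 2 ∧ F4 x ≤ 3 * N + 3 ∧
      F5 x ≤ 3 * N + 2 := by
  rcases h with h | ⟨h, y, hy, hadj⟩
  · obtain ⟨-, g0, g1, g2, g3, g4, g5⟩ := h
    refine ⟨?_, ?_, ?_, ?_, ?_, ?_⟩ <;> omega
  · have h1 := exit6 hy hadj h
    obtain ⟨hx1, hy1, -⟩ := hadj
    obtain ⟨-, g0, g1, g2, g3, g4, g5⟩ := hy
    clear h
    obtain ⟨a, b⟩ := x
    obtain ⟨c, e⟩ := y
    simp only [hon, F0, F1, F2, F3, F4, F5, Prod.mk_sub_mk, Prod.mk.injEq] at *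
    rcases h1 with ⟨h1, h2, h3⟩ | ⟨h1, h2, h3⟩ | ⟨h1, h2, h3⟩ | ⟨h1, h2, h3⟩ | ⟨h1, h2, h3⟩ | ⟨h1, h2, h3⟩
    · have e1 : a = c + 1 := by omega
      have e2 : b = e := by omega
      subst e1 e2
      refine ⟨?_, ?_, ?_, ?_, ?_, ?_⟩ <;> omega
    · have e1 : a = c := by omega
      have e2 : b = e + 1 := by omega
      subst e1 e2
      refine ⟨?_, ?_, ?_, ?_, ?_, ?_⟩ <;> omega
    · have e1 : a = c - 1 := by omega
      have e2 : b = e + 1 := by omega
      subst e1 e2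
      refine ⟨?_, ?_, ?_, ?_, ?_, ?_⟩ <;> omega
    · have e1 : a = c - 1 := by omega
      have e2 : b = e := by omega
      subst e1 e2
      refine ⟨?_, ?_, ?_, ?_, ?_, ?_⟩ <;> omega
    · have e1 : a = c := by omega
      have e2 : b = e - 1 := by omega
      subst e1 e2
      refine ⟨?_, ?_, ?_, ?_, ?_, ?_⟩ <;> omega
    · have e1 : a = c + 1 := by omega
      have e2 : b = e - 1 := by omega
      subst e1 e2
      refine ⟨?_, ?_, ?_, ?_, ?_, ?_⟩ <;> omega

/-- The view from an exit vertex: everything lies in a window of four sectors, the neighbour in the middle. -/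
lemma side {N : ℕ} {u v : ℤ × ℤ} (hv : Hx N v) (hadj : Adj u v) (hu : ¬ Hx N u) :
    ∃ m : ℤ, (sec (v - u) - m) % 6 = 2 ∧ ∀ x, Near N x → x ≠ u → (sec (x - u) - m) % 6 ≤ 3 := by
  have h1 := exit6 hv hadj hu
  rcases h1 with ⟨h1, h2⟩ | ⟨h1, h2⟩ | ⟨h1, h2⟩ | ⟨h1, h2⟩ | ⟨h1, h2⟩ | ⟨h1, h2⟩
  · refine ⟨1, ?_, fun x hx hne => cw0 (nz_of_ne hne) ?_⟩
    · have : v - u = (-1, 0) := by
        have : v - u = -(u - v) := by ring
        rw [this, h2]; rfl
      rw [this]; decide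
    · have := near_le hx
      have e : F0 (x - u) = F0 x - F0 u := by simp only [F0, Prod.fst_sub, Prod.snd_sub]; ring
      rw [e]; omega
  · refine ⟨2, ?_, fun x hx hne => cw1 (nz_of_ne hne) ?_⟩
    · have : v - u = (0, -1) := by
        have : v - u = -(u - v) := by ring
        rw [this, h2]; rfl
      rw [this]; decide
    · have := near_le hx
      have e : F1 (x - u) = F1 x - F1 u := by simp only [F1, Prod.fst_sub, Prod.snd_sub]; ring
      rw [e]; omega
  · refine ⟨3, ?_, fun x hx hne => cw2 (nz_of_ne hne) ?_⟩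
    · have : v - u = (1, -1) := by
        have : v - u = -(u - v) := by ring
        rw [this, h2]; rfl
      rw [this]; decide
    · have := near_le hx
      have e : F2 (x - u) = F2 x - F2 u := by simp only [F2, Prod.fst_sub, Prod.snd_sub]; ring
      rw [e]; omega
  · refine ⟨4, ?_, fun x hx hne => cw3 (nz_of_ne hne) ?_⟩
    · have : v - u = (1, 0) := by
        have : v - u = -(u - v) := by ring
        rw [this, h2]; rfl
      rw [this]; decide
    · have := near_le hx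
      have e : F3 (x - u) = F3 x - F3 u := by simp only [F3, Prod.fst_sub, Prod.snd_sub]; ring
      rw [e]; omega
  · refine ⟨5, ?_, fun x hx hne => cw4 (nz_of_ne hne) ?_⟩
    · have : v - u = (0, 1) := by
        have : v - u = -(u - v) := by ring
        rw [this, h2]; rfl
      rw [this]; decide
    · have := near_le hx
      have e : F4 (x - u) = F4 x - F4 u := by simp only [F4, Prod.fst_sub, Prod.snd_sub]; ring
      rw [e]; omega
  · refine ⟨0, ?_, fun x hx hne => cw5 (nz_of_ne hne) ?_⟩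
    · have : v - u = (-1, 1) := by
        have : v - u = -(u - v) := by ring
        rw [this, h2]; rfl
      rw [this]; decide
    · have := near_le hx
      have e : F5 (x - u) = F5 x - F5 u := by simp only [F5, Prod.fst_sub, Prod.snd_sub]; ring
      rw [e]; omega

/-- The neighbour of an exit vertex in the hexagon is unique. -/
lemma exit_unique {N : ℕ} {u v v' : ℤ × ℤ} (hv : Hx N v) (hv' : Hx N v') (h : Adj u v) (h' : Adj u v')
    (hu : ¬ Hx N u) : v = v' := by
  have h1 := exit6 hv h hu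
  have h2 := exit6 hv' h' hu
  obtain ⟨hu1, -, -⟩ := h
  obtain ⟨-, g0, g1, g2, g3, g4, g5⟩ := hv
  clear h' hu hv'
  obtain ⟨a, b⟩ := u
  obtain ⟨c, e⟩ := v
  obtain ⟨f, g⟩ := v'
  simp only [hon, F0, F1, F2, F3, F4, F5, Prod.mk_sub_mk, Prod.mk.injEq] at *
  rcases h1 with ⟨h1, h3, h4⟩ | ⟨h1, h3, h4⟩ | ⟨h1, h3, h4⟩ | ⟨h1, h3, h4⟩ | ⟨h1, h3, h4⟩ | ⟨h1, h3, h4⟩ <;>
    rcases h2 with ⟨h2, h5, h6⟩ | ⟨h2, h5, h6⟩ | ⟨h2, h5, h6⟩ | ⟨h2, h5, h6⟩ | ⟨h2, h5, h6⟩ | ⟨h2, h5, h6⟩ <;>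
    omega

/-- The boundary edges of the hexagon. -/
lemma hx_bd {N : ℕ} {s s' : ℤ × ℤ} (hs : Hx N s) (hadj : Adj s s') (hs' : ¬ Hx N s') : Bd (Hx N) s s' := by
  refine ⟨hs, hs', hadj, fun x h => h.1, ?_⟩
  obtain ⟨m, -, hm⟩ := side hs hadj.symm hs'
  refine ⟨m, fun x hx => ?_⟩
  have := hm x (Or.inl hx) (by rintro rfl; exact hs' hx)
  omega

/-- An exit of the hexagon starting at a boundary edge. -/
lemma exit_nodup {N n : ℕ} {s s' u v w : ℤ × ℤ} {r : List (ℤ × ℤ)} (hb : Bd (Hx N) s s')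
    (hP : IsW (Hx N) s s' n (v :: w :: r)) (hadj : Adj u v) (huw : u ≠ w) (hu : ¬ Hx N u) :
    (u :: v :: w :: r).Nodup := by
  refine List.nodup_cons.2 ⟨?_, hP.2.1⟩
  intro hm
  obtain ⟨hl, hN, hC, t, ht, hpt⟩ := hP
  rw [ht] at hm
  have h1 : u = s' := by
    simp only [List.mem_append, List.mem_cons, List.not_mem_nil, or_false] at hm
    rcases hm with h | h | h
    · exact absurd (hpt u (by simp [h])) hu
    · exact absurd (hpt u (by simp [h])) hu
    · exact h
  subst h1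
  have hv : Hx N v := by
    cases t with
    | nil =>
      simp only [List.nil_append, List.cons.injEq] at ht
      rw [ht.1]; exact hb.start
    | cons a t =>
      simp only [List.cons_append, List.cons.injEq] at ht
      rw [ht.1]; exact hpt a (by simp)
  have h2 := exit_unique hv hb.start hadj hb.adj.symm hu
  cases t with
  | nil =>
    simp only [List.nil_append, List.cons.injEq] at ht
    exact huw ht.2.1.symm
  | cons a t =>
    simp only [List.cons_append, List.cons.injEq] at ht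
    have h3 : s ∈ w :: r := by rw [ht.2]; simp
    have h4 := (List.nodup_cons.1 hN).1
    rw [h2] at h4
    exact h4 h3

/-- The turning of a path from boundary to boundary is at most 180 degrees. -/
theorem turn_le {N n : ℕ} {s s' u v w : ℤ × ℤ} {r : List (ℤ × ℤ)} (hb : Bd (Hx N) s s')
    (hP : IsW (Hx N) s s' n (v :: w :: r)) (hadj : Adj u v) (huw : u ≠ w) (hu : ¬ Hx N u) :
    -3 ≤ Tn (u :: v :: w :: r) ∧ Tn (u :: v :: w :: r) ≤ 3 := by
  have hnd := exit_nodup hb hP hadj huw hu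
  obtain ⟨hl, hN, hC, t, ht, hpt⟩ := hP
  have hHQ : HChain (u :: v :: w :: r) := List.isChain_cons_cons.2 ⟨hadj, hC⟩
  -- write the walk as `T ++ [s']`
  obtain ⟨T, hT, hTl⟩ : ∃ T, v :: w :: r = (v :: T) ++ [s'] ∧ (v :: T).getLast (by simp) = s := by
    cases t with
    | nil =>
      simp only [List.nil_append, List.cons.injEq] at ht
      refine ⟨[], ?_, ?_⟩
      · simp [ht.1, ht.2.1, ht.2.2]
      · simp [ht.1]
    | cons a t =>
      simp only [List.cons_append, List.cons.injEq] at ht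
      refine ⟨t ++ [s], ?_, ?_⟩
      · rw [ht.2]; simp
      · simp
  have hpT : ∀ x ∈ v :: T, Hx N x := by
    intro x hx
    have h1 : (v :: T) ++ [s'] = (t ++ [s]) ++ [s'] := by rw [← hT, ht]; simp
    have h2 := List.append_cancel_right h1
    rw [h2] at hx
    exact hpt x hx
  rw [hT] at hHQ hnd ⊢
  have hv : Hx N v := hpT v (by simp)
  have hsec := secant s' (v :: T) u (tchain_of hHQ (NB_of_nodup hnd)) hnd
  rw [hsec]
  -- view from `s'`
  obtain ⟨m, hm1, hm2⟩ := side hb.start hb.adj.symm hb.out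
  have hus' : u ≠ s' := by
    rintro rfl
    exact (List.nodup_cons.1 hnd).1 (by simp)
  have nears' : Near N s' := Or.inr ⟨hb.out, s, hb.start, hb.adj.symm⟩
  have nearu : Near N u := Or.inr ⟨hu, v, hv, hadj⟩
  have hU1 : UChain (u :: (v :: T)) := by
    have : HChain ((u :: (v :: T)) ++ [s']) := by simpa using hHQ
    exact HChain.U (List.isChain_append.1 this).1
  have w1 := Th_window m s' (v :: T) u hU1 (by
    intro x hx
    have hxs : x ≠ s' := by
      rcases List.mem_cons.1 hx with e | hx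
      · rw [e]; exact hus'
      · rintro rfl; exact hb.out (hpT _ hx)
    have hnx : Near N x := by
      rcases List.mem_cons.1 hx with e | hx
      · rw [e]; exact nearu
      · exact Or.inl (hpT _ hx)
    refine ⟨nz_of_ne hxs, ?_⟩
    have := hm2 x hnx hxs
    omega)
  have hg : (u :: v :: T).getLast (by simp) = s := by rw [List.getLast_cons_cons]; exact hTl
  rw [hg, hm1] at w1
  have b1 := hm2 u nearu hus'
  -- view from `u`
  obtain ⟨m', hm1', hm2'⟩ := side hv hadj hu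
  have hU2 : UChain (v :: (T ++ [s'])) := by
    have : HChain ([u] ++ (v :: (T ++ [s']))) := by simpa using hHQ
    exact HChain.U (List.isChain_append.1 this).2.1
  have w2 := Th_window m' u (T ++ [s']) v hU2 (by
    intro x hx
    have hx' : x ∈ v :: T ∨ x = s' := by
      simp only [List.mem_cons, List.mem_append, List.not_mem_nil, or_false] at hx ⊢
      tauto
    have hxu : x ≠ u := by
      rcases hx' with hx' | rfl
      · rintro rfl; exact hu (hpT _ hx')
      · exact fun e => hus' e.symm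
    have hnx : Near N x := by
      rcases hx' with hx' | rfl
      · exact Or.inl (hpT _ hx')
      · exact nears'
    refine ⟨nz_of_ne hxu, ?_⟩
    have := hm2' x hnx hxu
    omega)
  have hg2 : (v :: (T ++ [s'])).getLast (by simp) = s' := by simp
  rw [hg2, hm1'] at w2
  have b2 := hm2' s' nears' (fun e => hus' e.symm)
  have e3 : (v :: T) ++ [s'] = v :: (T ++ [s']) := rfl
  rw [e3, w1, w2]
  have c1 := Int.emod_nonneg (sec (u - s') - m) (show (6:ℤ) ≠ 0 by norm_num)
  have c2 := Int.emod_nonneg (sec (s' - u) - m') (show (6:ℤ) ≠ 0 by norm_num)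
  constructor <;> omega

end Pool.Agent.RTA
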