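import Pool.Agent.RTA.Sum
import Pool.Agent.Hhelper14.SAW.Low
import Pool.Agent.Hhelper3.SAW.SurgeryFull
import Pool.Agent.HDN.GG

/-!
Power law growth of the mass of the arms.
-/

namespace Pool.Agent.RTA

open Pool.Agent.Hhelper14.SAW

/-- Growth of the mass of the slit hits. -/
theorem g_growth : ∃ c : ℝ, 0 < c ∧ ∀ N : ℕ, c * ((N : ℝ) + 1) ^ (1 / 131 : ℝ) ≤
    1 + 2 * Real.sin (Real.pi / 8) * mass (Par.all N) 5 := by
  obtain ⟨K, hK, h⟩ := Pool.Agent.HDN.slit_growth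
  refine ⟨K⁻¹, by positivity, fun N => ?_⟩
  have h1 := h N
  have e : (2 * (1 / 262) : ℝ) = 1 / 131 := by norm_num
  rw [e] at h1
  rw [inv_mul_le_iff₀ hK]
  exact h1

lemma side_mass (N : ℕ) : 1 + 2 * Real.sin (Real.pi / 8) * mass (Par.all N) 5 ≤
    ∑ k ∈ Finset.Icc (-3 : ℤ) 3, mass (Par.all N) k := by
  have h := congrArg Complex.re (mass_ident (Par.all N))
  rw [sum_Icc_five] at h
  have hr : mass (Par.all N) (-5) = mass (Par.all N) 5 := mass_refl (Par.all N) 5
  have hre : ∀ k : ℤ, (zt k * (mass (Par.all N) k : ℂ)).re = Real.cos (k * (Real.pi / 8)) * mass (Par.all N) k := by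
    intro k
    rw [Complex.mul_re, Complex.ofReal_re, Complex.ofReal_im, mul_zero, sub_zero, zt_re]
  simp only [Complex.add_re, hre, Complex.one_re] at h
  have c4 : Real.cos (((4 : ℤ) : ℝ) * (Real.pi / 8)) = 0 := by
    have : (((4 : ℤ) : ℝ) * (Real.pi / 8)) = Real.pi / 2 := by push_cast; ring
    rw [this, Real.cos_pi_div_two]
  have c4' : Real.cos (((-4 : ℤ) : ℝ) * (Real.pi / 8)) = 0 := by
    have : (((-4 : ℤ) : ℝ) * (Real.pi / 8)) = -(Real.pi / 2) := by push_cast; ring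
    rw [this, Real.cos_neg, Real.cos_pi_div_two]
  have c5 : Real.cos (((5 : ℤ) : ℝ) * (Real.pi / 8)) = - Real.sin (Real.pi / 8) := by
    have : (((5 : ℤ) : ℝ) * (Real.pi / 8)) = Real.pi / 8 + Real.pi / 2 := by push_cast; ring
    rw [this, Real.cos_add_pi_div_two]
  have c5' : Real.cos (((-5 : ℤ) : ℝ) * (Real.pi / 8)) = - Real.sin (Real.pi / 8) := by
    have : (((-5 : ℤ) : ℝ) * (Real.pi / 8)) = -(Real.pi / 8 + Real.pi / 2) := by push_cast; ring
    rw [this, Real.cos_neg, Real.cos_add_pi_div_two]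
  rw [c4, c4', c5, c5', hr] at h
  have hle : ∀ k : ℤ, Real.cos (k * (Real.pi / 8)) * mass (Par.all N) k ≤ mass (Par.all N) k := by
    intro k
    have h1 := mass_nonneg (Par.all N) k
    have h2 := Real.cos_le_one (k * (Real.pi / 8))
    nlinarith
  have hI : Finset.Icc (-3 : ℤ) 3 = {-3, -2, -1, 0, 1, 2, 3} := by decide
  rw [hI]
  repeat rw [Finset.sum_insert (by decide)]
  rw [Finset.sum_singleton]
  have a1 := hle (-3)
  have a2 := hle (-2)
  have a3 := hle (-1)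
  have a4 := hle 0
  have a5 := hle 1
  have a6 := hle 2
  have a7 := hle 3
  linarith

lemma D_hx {N : ℕ} {x : ℤ × ℤ} (h : D (Par.all N) x) : Hx N x := by
  obtain ⟨g, gs, g0, g1, g5, gu, gd⟩ := h
  obtain ⟨a, b⟩ := x
  unfold Hx
  simp only [Par.all, F0, F1, F2, F3, F4, F5] at *
  rcases lt_or_ge b 0 with hb | hb
  · have := gd hb
    refine ⟨g, ?_, ?_, ?_, ?_, ?_, ?_⟩ <;> omega
  · have := gu hb
    refine ⟨g, ?_, ?_, ?_, ?_, ?_, ?_⟩ <;> omega

lemma kind_out {N : ℕ} {u v : ℤ × ℤ} {k : ℤ} (hadj : Adj u v) (h : ExitKind (Par.all N) u v k)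
    (hk : k ∈ Finset.Icc (-3 : ℤ) 3) : ¬ Hx N u := by
  rw [Finset.mem_Icc] at hk
  obtain ⟨hu, hv, -⟩ := hadj
  rintro ⟨-, g0, g1, g2, g3, g4, g5⟩
  obtain ⟨a, b⟩ := u
  obtain ⟨x, y⟩ := v
  simp only [ExitKind, Par.all, hon, F0, F1, F2, F3, F4, F5, Prod.mk_sub_mk, Prod.mk.injEq] at *
  omega

/-- Exits of the slit domain, reversed, are arms of the hexagon. -/
lemma ex_arm {N n : ℕ} {k : ℤ} (hk : k ∈ Finset.Icc (-3 : ℤ) 3) {Q : List (ℤ × ℤ)}
    (hQ : Q ∈ ex (Par.all N) k n) : ∃ e ∈ bdry N, Q.dropLast.reverse ∈ armF N e n := by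
  obtain ⟨u, v, w, r, rfl, hP, hadj, huw, hu, -, hv, hkind⟩ := ex_kind hQ
  have hout := kind_out hadj hkind hk
  have hvH := D_hx hv
  obtain ⟨hl, hN, hC, t, ht, hpt⟩ := hP
  obtain ⟨T, hT, hTt⟩ : ∃ T, v :: w :: r = (v :: T) ++ [o'] ∧ v :: T = t ++ [o] := by
    cases t with
    | nil =>
      simp only [List.nil_append, List.cons.injEq] at ht
      refine ⟨[], ?_, ?_⟩
      · simp [ht.1, ht.2.1, ht.2.2]
      · simp [ht.1]
    | cons a t =>
      simp only [List.cons_append, List.cons.injEq] at ht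
      refine ⟨t ++ [o], ?_, ?_⟩
      · rw [ht.2]; simp
      · rw [ht.1]; simp
  have hdrop : (u :: v :: w :: r).dropLast = u :: v :: T := by
    rw [hT]
    have : u :: ((v :: T) ++ [o']) = (u :: v :: T) ++ [o'] := by simp
    rw [this, List.dropLast_concat]
  have he : (v, u) ∈ bdry N := mem_bdry.2 ⟨hvH, hadj.symm, hout⟩
  refine ⟨(v, u), he, ?_⟩
  have hb := bdry_bd he
  unfold armF
  rw [Finset.mem_filter, mem_sw hb, hdrop]
  have hrev : (u :: v :: T).reverse = T.reverse ++ [v, u] := by simp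
  have hDT : ∀ x ∈ v :: T, D (Par.all N) x := by
    intro x hx
    rw [hTt] at hx
    exact hpt x hx
  refine ⟨⟨?_, ?_, ?_, T.reverse, hrev, ?_⟩, ?_⟩
  · rw [List.length_reverse]
    have : (v :: w :: r).length = ((v :: T) ++ [o']).length := by rw [hT]
    simp at this hl ⊢
    omega
  · rw [List.nodup_reverse, List.nodup_cons]
    refine ⟨fun hm => hu (hDT u hm), ?_⟩
    rw [hT] at hN
    exact (List.nodup_append.1 hN).1
  · have h1 : HChain (u :: v :: T) := by
      have : HChain ((u :: v :: T) ++ [o']) := by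
        have h2 : HChain (u :: v :: w :: r) := List.isChain_cons_cons.2 ⟨hadj, hC⟩
        rw [hT] at h2
        simpa using h2
      exact (List.isChain_append.1 this).1
    exact List.isChain_reverse.2 (List.IsChain.imp (fun _ _ hh => hh.symm) h1)
  · intro x hx
    have : x ∈ v :: T := by
      simp only [List.mem_append, List.mem_reverse, List.mem_cons, List.not_mem_nil, or_false] at hx ⊢
      tauto
    exact D_hx (hDT x this)
  · have : (u :: v :: T).reverse = (t ++ [o]).reverse ++ [u] := by rw [← hTt]; simp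
    rw [this]
    simp

lemma card_le (N n : ℕ) : ∑ k ∈ Finset.Icc (-3 : ℤ) 3, (ex (Par.all N) k n).card ≤
    ∑ e ∈ bdry N, (armF N e n).card := by
  classical
  set X := (exits (D (Par.all N)) n).filter (fun Q => Tn Q ∈ Finset.Icc (-3 : ℤ) 3) with hX
  have h1 : X.card = ∑ k ∈ Finset.Icc (-3 : ℤ) 3, (ex (Par.all N) k n).card := by
    rw [Finset.card_eq_sum_card_fiberwise (s := X) (f := Tn) (t := Finset.Icc (-3 : ℤ) 3)
      (fun Q hQ => by
        have := (Finset.mem_filter.1 (Finset.mem_coe.1 hQ)).2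
        exact Finset.mem_coe.2 this)]
    refine Finset.sum_congr rfl fun k hk => ?_
    congr 1
    unfold ex
    rw [hX, Finset.filter_filter]
    refine Finset.filter_congr fun Q _ => ?_
    constructor
    · exact fun h => h.2
    · rintro rfl; exact ⟨hk, rfl⟩
  rw [← h1]
  refine le_trans ?_ (Finset.card_biUnion_le (s := bdry N) (t := fun e => armF N e n))
  have hex : ∀ Q ∈ X, ∃ k ∈ Finset.Icc (-3 : ℤ) 3, Q ∈ ex (Par.all N) k n := by
    intro Q hQ
    rw [hX, Finset.mem_filter] at hQ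
    refine ⟨Tn Q, hQ.2, ?_⟩
    unfold ex
    rw [Finset.mem_filter]
    exact ⟨hQ.1, rfl⟩
  refine Finset.card_le_card_of_injOn (fun Q => Q.dropLast.reverse) ?_ ?_
  · intro Q hQ
    obtain ⟨k, hk, hQk⟩ := hex Q hQ
    obtain ⟨e, he, hm⟩ := ex_arm hk hQk
    simp only [Finset.coe_biUnion, Set.mem_iUnion, Finset.mem_coe]
    exact ⟨e, he, hm⟩
  · intro Q hQ Q' hQ' h
    obtain ⟨k, hk, hQk⟩ := hex Q hQ
    obtain ⟨k', hk', hQk'⟩ := hex Q' hQ'
    obtain ⟨u, v, w, r, rfl, ⟨-, -, -, t, ht, -⟩, -⟩ := mem_ex.1 hQk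
    obtain ⟨u', v', w', r', rfl, ⟨-, -, -, t', ht', -⟩, -⟩ := mem_ex.1 hQk'
    have h2 : (u :: v :: w :: r).dropLast = (u' :: v' :: w' :: r').dropLast := by
      have := congrArg List.reverse h
      simpa using this
    rw [ht, ht'] at h2 ⊢
    have e1 : u :: (t ++ [o, o']) = (u :: t ++ [o]) ++ [o'] := by simp
    have e2 : u' :: (t' ++ [o, o']) = (u' :: t' ++ [o]) ++ [o'] := by simp
    rw [e1, e2, List.dropLast_concat, List.dropLast_concat] at h2
    rw [e1, e2, h2]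

lemma armF_empty {N n : ℕ} {e : (ℤ × ℤ) × (ℤ × ℤ)} (he : e ∈ bdry N) (hn : Bn N ≤ n) : armF N e n = ∅ := by
  unfold armF
  rw [sw_empty (bdry_bd he) n hn]; simp

/-- The arms contain the exits of the slit domain. -/
lemma Z1_ge (N : ℕ) : ∑ k ∈ Finset.Icc (-3 : ℤ) 3, mass (Par.all N) k ≤ Z1 N := by
  have hx := xc_pos
  have h0 : ∀ n, Bn N ≤ n → ∀ k ∈ Finset.Icc (-3 : ℤ) 3, (ex (Par.all N) k n).card = 0 := by
    intro n hn k hk
    have h1 := card_le N n
    have h2 : ∑ e ∈ bdry N, (armF N e n).card = 0 := by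
      refine Finset.sum_eq_zero fun e he => ?_
      rw [armF_empty he hn]; rfl
    rw [h2] at h1
    have h3 := Finset.single_le_sum (f := fun k => (ex (Par.all N) k n).card) (fun _ _ => Nat.zero_le _) hk
    omega
  have h1 : ∀ k ∈ Finset.Icc (-3 : ℤ) 3, mass (Par.all N) k =
      ∑ n ∈ Finset.range (Bn N), xc ^ (n + 1) * ((ex (Par.all N) k n).card : ℝ) := by
    intro k hk
    unfold mass
    refine tsum_eq_sum fun n hn => ?_
    rw [Finset.mem_range, not_lt] at hn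
    rw [h0 n hn k hk]; simp
  have h2 : Z1 N = ∑ n ∈ Finset.range (Bn N), ∑ e ∈ bdry N, ∑ _P ∈ armF N e n, xc ^ (n + 1) := by
    unfold Z1
    rw [Finset.sum_comm]
  rw [Finset.sum_congr rfl h1, Finset.sum_comm, h2]
  refine Finset.sum_le_sum fun n _ => ?_
  rw [← Finset.mul_sum]
  simp only [Finset.sum_const, nsmul_eq_mul]
  rw [← Finset.sum_mul, mul_comm]
  refine mul_le_mul_of_nonneg_right ?_ (by positivity)
  exact_mod_cast card_le N n

/-- Power law growth of the mass of the arms. -/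
theorem Z1_growth : ∃ c : ℝ, 0 < c ∧ ∀ N : ℕ, c * ((N : ℝ) + 1) ^ (1 / 131 : ℝ) ≤ Z1 N := by
  obtain ⟨c, hc, h⟩ := g_growth
  exact ⟨c, hc, fun N => (h N).trans ((side_mass N).trans (Z1_ge N))⟩

end Pool.Agent.RTA
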