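import Pool.Agent.RTA.Walk
import Pool.Agent.Hhelper14.SAW.Mass

/-!
The Duminil-Copin - Smirnov identity for the walks that have visited a marked vertex `z`.
-/

namespace Pool.Agent.RTA

open Pool.Agent.Hhelper14.SAW

variable {p : ℤ × ℤ → Prop} {s s' z : ℤ × ℤ}

section ident
variable (p) (s s' z) [DecidablePred p]

/-- Sum of the phases of the walks with `n` steps that have visited `z`. -/
noncomputable def Tz (n : ℕ) : ℂ := ∑ P ∈ (sw p s s' n).filter (fun P => z ∈ P), zt (Tn P)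

/-- Sum of the phases of the walks with `n` steps that end at `z`. -/
noncomputable def Az (n : ℕ) : ℂ := ∑ P ∈ (sw p s s' n).filter (fun P => P.headI = z), zt (Tn P)

/-- Sum of the phases of the exits after `n` steps that have visited `z`. -/
noncomputable def Ez (n : ℕ) : ℂ :=
  ∑ Q ∈ ((cn p s s' n).filter (fun Q => z ∈ Q.tail)).filter (fun Q => ¬ p Q.headI), zt (Tn Q)

variable {p} {s} {s'} {z}

lemma cn_sum (hp : Bd p s s') (n : ℕ) :
    ∑ Q ∈ (cn p s s' n).filter (fun Q => z ∈ Q.tail), zt (Tn Q) = mu * Tz p s s' z n := by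
  have h1 : (cn p s s' n).filter (fun Q => z ∈ Q.tail) =
      ((sw p s s' n).filter (fun P => z ∈ P)).biUnion exts := by
    ext Q
    unfold cn
    simp only [Finset.mem_filter, Finset.mem_biUnion]
    constructor
    · rintro ⟨⟨P, hP, hQ⟩, hz⟩
      obtain ⟨u, v, w, r, h1, h2, -⟩ := mem_exts.1 hQ
      refine ⟨P, ⟨hP, ?_⟩, hQ⟩
      rw [h2] at hz
      simpa using hz
    · rintro ⟨P, ⟨hP, hz⟩, hQ⟩
      refine ⟨⟨P, hP, hQ⟩, ?_⟩
      obtain ⟨u, v, w, r, h1, h2, -⟩ := mem_exts.1 hQ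
      rw [h2]
      simpa using hz
  rw [h1]
  unfold Tz
  rw [Finset.sum_biUnion, Finset.mul_sum]
  · refine Finset.sum_congr rfl fun P hP => ?_
    rw [Finset.mem_filter, mem_sw hp] at hP
    obtain ⟨v, w, r, rfl, hvw, -⟩ := hP.1.cases
    have hne : (v + L (v - w)) :: v :: w :: r ≠ (v + R (v - w)) :: v :: w :: r := by
      intro h
      simp only [List.cons.injEq, and_true, add_right_inj] at h
      exact LR_ne hvw.2.2 h
    simp only [exts]
    rw [Finset.sum_pair hne, Tn_cons_cons_cons, Tn_cons_cons_cons]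
    have hLR := dl_LR hvw.2.2
    have e1 : v + L (v - w) - v = L (v - w) := by ring
    have e2 : v + R (v - w) - v = R (v - w) := by ring
    rw [e1, e2, hLR.1, hLR.2, zt_add, zt_add, ← zt_branch]
    ring
  · intro P hP P' hP' hne
    simp only [Function.onFun]
    rw [Finset.disjoint_left]
    intro Q hQ hQ'
    obtain ⟨u, v, w, r, h1, h2, -⟩ := mem_exts.1 hQ
    obtain ⟨u', v', w', r', h1', h2', -⟩ := mem_exts.1 hQ'
    rw [h2] at h2'
    simp only [List.cons.injEq] at h2'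
    exact hne h2'.2

lemma hit_sum (hp : Bd p s s') (n : ℕ) :
    ∑ Q ∈ ((cn p s s' n).filter (fun Q => z ∈ Q.tail)).filter
      (fun Q => p Q.headI ∧ Q.headI ∈ Q.tail), zt (Tn Q) = 0 := by
  have key : ∀ Q ∈ ((cn p s s' n).filter (fun Q => z ∈ Q.tail)).filter
      (fun Q => p Q.headI ∧ Q.headI ∈ Q.tail),
      flip Q ∈ ((cn p s s' n).filter (fun Q => z ∈ Q.tail)).filter
        (fun Q => p Q.headI ∧ Q.headI ∈ Q.tail) ∧ flip (flip Q) = Q ∧ zt (Tn Q) + zt (Tn (flip Q)) = 0 := by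
    intro Q hQ
    simp only [Finset.mem_filter, mem_cn hp] at hQ ⊢
    obtain ⟨⟨h1, h2⟩, h3, h4⟩ := hQ
    obtain ⟨g1, g2, g3, g4, g5, g6⟩ := flip_spec' hp h1 h3 h4
    exact ⟨⟨⟨g1, (g5 z).2 h2⟩, g2, g3⟩, g4, g6⟩
  refine Finset.sum_involution (fun Q _ => flip Q) (fun Q hQ => (key Q hQ).2.2) ?_ ?_ ?_
  · intro Q hQ hne he
    have := (key Q hQ).2.2
    rw [he] at this
    apply hne
    have h2 : (2 : ℂ) * zt (Tn Q) = 0 := by rw [two_mul]; exact this
    rcases mul_eq_zero.1 h2 with h3 | h3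
    · norm_num at h3
    · exact h3
  · intro Q hQ; exact (key Q hQ).1
  · intro Q hQ; exact (key Q hQ).2.1

lemma ok_sum (hp : Bd p s s') (n : ℕ) :
    ∑ Q ∈ ((cn p s s' n).filter (fun Q => z ∈ Q.tail)).filter
      (fun Q => p Q.headI ∧ Q.headI ∉ Q.tail), zt (Tn Q) = Tz p s s' z (n + 1) - Az p s s' z (n + 1) := by
  have h1 : ((cn p s s' n).filter (fun Q => z ∈ Q.tail)).filter
      (fun Q => p Q.headI ∧ Q.headI ∉ Q.tail) = (sw p s s' (n + 1)).filter (fun Q => z ∈ Q.tail) := by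
    rw [sw_succ, Finset.filter_filter, Finset.filter_filter]
    refine Finset.filter_congr fun Q _ => ?_
    tauto
  rw [h1, eq_sub_iff_add_eq]
  unfold Tz Az
  rw [← Finset.sum_union]
  · refine Finset.sum_congr ?_ fun _ _ => rfl
    ext Q
    simp only [Finset.mem_union, Finset.mem_filter]
    constructor
    · rintro (⟨h2, h3⟩ | ⟨h2, h3⟩)
      · exact ⟨h2, List.mem_of_mem_tail h3⟩
      · refine ⟨h2, ?_⟩
        rw [mem_sw hp] at h2
        obtain ⟨v, w, r, rfl, -, -⟩ := h2.cases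
        rw [← h3]; simp
    · rintro ⟨h2, h3⟩
      have h4 := (mem_sw hp _ _).1 h2
      obtain ⟨v, w, r, rfl, -, -⟩ := h4.cases
      rcases List.mem_cons.1 h3 with e | h3
      · right; exact ⟨h2, e.symm⟩
      · left; exact ⟨h2, h3⟩
  · rw [Finset.disjoint_left]
    intro Q hQ hQ'
    simp only [Finset.mem_filter] at hQ hQ'
    have h4 := (mem_sw hp _ _).1 hQ.1
    obtain ⟨v, w, r, rfl, -, -⟩ := h4.cases
    have h5 := (List.nodup_cons.1 h4.2.1).1
    apply h5
    have h6 : v = z := hQ'.2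
    rw [h6]
    exact hQ.2

/-- The one-step identity. -/
lemma step (hp : Bd p s s') (n : ℕ) : (mu : ℂ) * Tz p s s' z n =
    (Tz p s s' z (n + 1) - Az p s s' z (n + 1)) + Ez p s s' z n := by
  have e1 := hit_sum (z := z) hp n
  have e2 := ok_sum (z := z) hp n
  have e3 := cn_sum (z := z) hp n
  rw [← e3, ← e2]
  unfold Ez
  set X := (cn p s s' n).filter (fun Q => z ∈ Q.tail) with hX
  have s1 := Finset.sum_filter_add_sum_filter_not X (fun Q => p Q.headI) (fun Q => zt (Tn Q))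
  have s2 := Finset.sum_filter_add_sum_filter_not (X.filter (fun Q => p Q.headI))
    (fun Q => Q.headI ∈ Q.tail) (fun Q => zt (Tn Q))
  have s3 : (X.filter (fun Q => p Q.headI)).filter (fun Q => Q.headI ∈ Q.tail) =
      X.filter (fun Q => p Q.headI ∧ Q.headI ∈ Q.tail) := Finset.filter_filter _ _ _
  have s4 : (X.filter (fun Q => p Q.headI)).filter (fun Q => Q.headI ∉ Q.tail) =
      X.filter (fun Q => p Q.headI ∧ Q.headI ∉ Q.tail) := Finset.filter_filter _ _ _
  rw [s3, s4, e1, zero_add] at s2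
  rw [← s1, ← s2]

lemma Tz_zero (hz : p z) (hp : Bd p s s') : Tz p s s' z 0 = Az p s s' z 0 := by
  unfold Tz Az
  refine Finset.sum_congr ?_ fun _ _ => rfl
  refine Finset.filter_congr fun P hP => ?_
  simp only [sw, Finset.mem_singleton] at hP
  rw [hP]
  simp only [List.mem_cons, List.not_mem_nil, or_false, List.headI_cons]
  constructor
  · rintro (h | h)
    · exact h.symm
    · exact absurd (h ▸ hz) hp.out
  · intro h; exact Or.inl h.symm

/-- Telescoping. -/
lemma tele (hz : p z) (hp : Bd p s s') (B : ℕ) :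
    ∑ n ∈ Finset.range (B + 1), (xc : ℂ) ^ n * Az p s s' z n =
      (xc : ℂ) ^ B * Tz p s s' z B + ∑ n ∈ Finset.range B, (xc : ℂ) ^ (n + 1) * Ez p s s' z n := by
  have hx : (xc : ℂ) * (mu : ℂ) = 1 := by exact_mod_cast xc_mu
  induction B with
  | zero => simp [Tz_zero hz hp]
  | succ B ih =>
    rw [Finset.sum_range_succ, ih, Finset.sum_range_succ _ B]
    have h := step (z := z) hp B
    have h2 : (xc : ℂ) ^ B * Tz p s s' z B =
        (xc : ℂ) ^ (B + 1) * ((Tz p s s' z (B + 1) - Az p s s' z (B + 1)) + Ez p s s' z B) := by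
      rw [← h, pow_succ]
      calc (xc : ℂ) ^ B * Tz p s s' z B = (xc : ℂ) ^ B * ((xc : ℂ) * (mu : ℂ)) * Tz p s s' z B := by
            rw [hx, mul_one]
        _ = _ := by ring
    rw [h2]
    ring

/-- The marked identity. -/
theorem marked (hz : p z) (hp : Bd p s s') {B : ℕ} (hB : ∀ n, B ≤ n → sw p s s' n = ∅) :
    ∑ n ∈ Finset.range B, (xc : ℂ) ^ n * Az p s s' z n =
      ∑ n ∈ Finset.range B, (xc : ℂ) ^ (n + 1) * Ez p s s' z n := by
  have h := tele (z := z) hz hp B
  have h1 : Tz p s s' z B = 0 := by unfold Tz; rw [hB B le_rfl]; simp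
  have h2 : Az p s s' z B = 0 := by unfold Az; rw [hB B le_rfl]; simp
  rw [Finset.sum_range_succ, h1, h2, mul_zero, add_zero, zero_add] at h
  exact h

end ident

end Pool.Agent.RTA
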