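import Pool.Agent.RTA.Arms
import Pool.Agent.RTA.Defs
import Pool.Agent.Hhelper14.SAW.Count
import Pool.Agent.Hhelper14.SAW.Main
import Pool.Agent.Hhelper14.SAW.Quant

/-!
From lists of complex numbers to lists of lattice points.
-/

namespace Pool.Agent.RTA

open Pool.Agent.Hhelper14.SAW Pool.Agent.Hhelper14.Honeycomb Pool.Agent.RTA.Radial

lemma omega_sq : omega * omega = omega - 1 := by
  have h3 : Real.sqrt 3 * Real.sqrt 3 = 3 := Real.mul_self_sqrt (by norm_num)
  apply Complex.ext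
  · rw [Complex.mul_re, Complex.sub_re, omega_re, omega_im, Complex.one_re]; linarith
  · rw [Complex.mul_im, Complex.sub_im, omega_re, omega_im, Complex.one_im]; ring

lemma emb_L (z : ℤ × ℤ) : emb (L z) = emb z * omega := by
  unfold emb L
  have h := omega_sq
  push_cast
  linear_combination (-(z.2 : ℂ)) * h

lemma omega_ne : omega ≠ 0 := by unfold omega; exact Complex.exp_ne_zero _

lemma emb_R (z : ℤ × ℤ) : emb (R z) * omega = emb z := by
  rw [← emb_L]
  congr 1
  obtain ⟨a, b⟩ := z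
  simp [L, R]

lemma emb_re (z : ℤ × ℤ) : (emb z).re = (F0 z : ℝ) / 2 := by
  unfold emb F0
  simp only [Complex.add_re, Complex.mul_re, Complex.intCast_re, Complex.intCast_im, omega_re, zero_mul,
    sub_zero]
  push_cast
  ring

lemma emb_pow (z : ℤ × ℤ) (k : ℕ) : emb z * omega ^ k = emb (L^[k] z) := by
  induction k with
  | zero => simp
  | succ k ih => rw [pow_succ, ← mul_assoc, ih, Function.iterate_succ_apply', emb_L]

/-- All six linear forms at most `c`. -/
def Six (c : ℤ) (z : ℤ × ℤ) : Prop :=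
  F0 z ≤ c ∧ F1 z ≤ c ∧ F2 z ≤ c ∧ F3 z ≤ c ∧ F4 z ≤ c ∧ F5 z ≤ c

lemma six_L {c : ℤ} {z : ℤ × ℤ} (h : Six c z) : Six c (L z) := by
  unfold Six at *
  simp only [F0, F1, F2, F3, F4, F5, L] at *
  omega

lemma six_iter {c : ℤ} {z : ℤ × ℤ} (h : Six c z) (k : ℕ) : Six c (L^[k] z) := by
  induction k with
  | zero => exact h
  | succ k ih => rw [Function.iterate_succ_apply']; exact six_L ih

lemma hex_iff {N : ℕ} {z : ℤ × ℤ} (hz : hon z) : emb z ∈ Hex N ↔ Hx N z := by
  have key : ∀ k : ℕ, (emb z * omega ^ k).re ≤ (3 * N + 1) / 2 ↔ F0 (L^[k] z) ≤ 3 * N + 1 := by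
    intro k
    rw [emb_pow, emb_re, div_le_div_iff_of_pos_right (by norm_num)]
    constructor
    · intro h; exact_mod_cast h
    · intro h; exact_mod_cast h
  constructor
  · rintro ⟨-, h⟩
    have h0 := (key 0).1 (h 0)
    have h1 := (key 1).1 (h 1)
    have h2 := (key 2).1 (h 2)
    have h3 := (key 3).1 (h 3)
    have h4 := (key 4).1 (h 4)
    have h5 := (key 5).1 (h 5)
    simp only [Function.iterate_zero, Function.iterate_succ, Function.comp_apply, id_eq, F0, L] at h0 h1 h2 h3 h4 h5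
    unfold Hx
    simp only [F0, F1, F2, F3, F4, F5]
    refine ⟨hz, ?_, ?_, ?_, ?_, ?_, ?_⟩ <;> linarith
  · intro h
    refine ⟨mem_V.2 ⟨z, hz, rfl⟩, fun k => (key k).2 ?_⟩
    exact (six_iter (c := 3 * N + 1) h.2 k).1

lemma chain_of : ∀ {R : List (ℤ × ℤ)}, (∀ x ∈ R, hon x) →
    (R.map emb).IsChain (fun x y => dist x y = 1) → HChain R
  | [], _, _ => by simp
  | [x], _, _ => by simp
  | x :: y :: R, h, hc => by
    simp only [List.map_cons] at hc
    obtain ⟨h1, h2⟩ := List.isChain_cons_cons.1 hc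
    refine List.isChain_cons_cons.2 ⟨⟨h x (by simp), h y (by simp), (dist_emb x y).1 h1⟩, ?_⟩
    exact chain_of (fun z hz => h z (List.mem_cons_of_mem _ hz)) (by simpa using h2)

lemma chain_map : ∀ {R : List (ℤ × ℤ)}, HChain R → (R.map emb).IsChain (fun x y => dist x y = 1)
  | [], _ => by simp
  | [x], _ => by simp
  | x :: y :: R, hc => by
    obtain ⟨h1, h2⟩ := List.isChain_cons_cons.1 hc
    have := chain_map h2
    simp only [List.map_cons] at this ⊢
    exact List.isChain_cons_cons.2 ⟨(dist_emb x y).2 h1.2.2, this⟩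

lemma lift : ∀ {w : List ℂ}, (∀ z ∈ w, z ∈ V) → ∃ R : List (ℤ × ℤ), R.map emb = w ∧ ∀ x ∈ R, hon x
  | [], _ => ⟨[], rfl, by simp⟩
  | z :: w, h => by
    obtain ⟨R, h1, h2⟩ := lift (w := w) (fun x hx => h x (List.mem_cons_of_mem _ hx))
    obtain ⟨x, hx1, hx2⟩ := mem_V.1 (h z (by simp))
    refine ⟨x :: R, by rw [List.map_cons, h1, ← hx2], ?_⟩
    intro y hy
    rcases List.mem_cons.1 hy with e | hy
    · rw [e]; exact hx1
    · exact h2 y hy

lemma armZ_hon {N : ℕ} {R : List (ℤ × ℤ)} (h : R ∈ ArmZ N) : ∀ x ∈ R, hon x := by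
  obtain ⟨t, s, s', h1, -, h3, h4⟩ := ArmZ.cases h
  obtain ⟨-, -, hC, t', ht', hpt⟩ := h4
  intro x hx
  rw [ht'] at hx
  have h5 := mem_bdry.1 h3
  simp only [List.mem_append, List.mem_cons, List.not_mem_nil, or_false] at hx
  rcases hx with hx | hx | hx
  · exact (hpt x (by simp [hx])).1
  · rw [hx]; exact h5.1.1
  · rw [hx]; exact h5.2.1.2.1

lemma arm_iff {N : ℕ} {R : List (ℤ × ℤ)} (hh : ∀ x ∈ R, hon x) : R.map emb ∈ Arm N ↔ R ∈ ArmZ N := by
  have hd : (∀ z ∈ (R.map emb).dropLast, z ∈ Hex N) ↔ ∀ z ∈ R.dropLast, Hx N z := by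
    rw [← List.map_dropLast]
    constructor
    · intro h z hz
      exact (hex_iff (hh z (List.dropLast_subset _ hz))).1 (h _ (List.mem_map_of_mem hz))
    · intro h z hz
      obtain ⟨x, hx, rfl⟩ := List.mem_map.1 hz
      exact (hex_iff (hh x (List.dropLast_subset _ hx))).2 (h x hx)
  have hg : (∀ z ∈ (R.map emb).getLast?, z ∉ Hex N) ↔ ∀ z ∈ R.getLast?, ¬ Hx N z := by
    rw [List.getLast?_map]
    constructor
    · intro h z hz hx
      refine h (emb z) ?_ ((hex_iff (hh z (List.mem_of_getLast? hz))).2 hx)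
      rw [Option.mem_map]
      exact ⟨z, hz, rfl⟩
    · intro h z hz hx
      rw [Option.mem_map] at hz
      obtain ⟨x, hx', rfl⟩ := hz
      exact h x hx' ((hex_iff (hh x (List.mem_of_getLast? hx'))).1 hx)
  constructor
  · rintro ⟨h1, h2, h3, h4, h5, h6⟩
    refine ⟨?_, chain_of hh h3, List.Nodup.of_map _ h4, hd.1 h5, hg.1 h6⟩
    cases R with
    | nil => simp at h1
    | cons x X =>
      simp only [List.map_cons, List.head?_cons, Option.some.injEq] at h1 ⊢
      apply emb_inj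
      rw [h1, emb_o]
  · rintro ⟨h1, h2, h3, h4, h5⟩
    refine ⟨?_, ?_, chain_map h2, h3.map emb_inj, hd.2 h4, hg.2 h5⟩
    · rw [List.head?_map, h1]
      simp [emb_o]
    · intro z hz
      obtain ⟨x, hx, rfl⟩ := List.mem_map.1 hz
      exact mem_V.2 ⟨x, hh x hx, rfl⟩

lemma arm_image (N : ℕ) : Arm N = (List.map emb) '' (ArmZ N) := by
  ext w
  constructor
  · intro hw
    obtain ⟨R, h1, h2⟩ := lift hw.2.1
    refine ⟨R, ?_, h1⟩
    rw [← arm_iff h2, h1]
    exact hw
  · rintro ⟨R, hR, rfl⟩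
    exact (arm_iff (armZ_hon hR)).2 hR

lemma map_inj : Function.Injective (List.map emb) := List.map_injective_iff.2 emb_inj

lemma avoid_image (N : ℕ) : Avoid N = (Prod.map (List.map emb) (List.map emb)) '' (AvoidZ N) := by
  ext ⟨w, w'⟩
  constructor
  · rintro ⟨h1, h2, h3⟩
    simp only at h1 h2 h3
    rw [arm_image] at h1 h2
    obtain ⟨R, hR, rfl⟩ := h1
    obtain ⟨R', hR', rfl⟩ := h2
    refine ⟨(R, R'), ⟨hR, hR', ?_⟩, rfl⟩
    intro z hz hz'
    refine h3 (emb z) ?_ (List.mem_map_of_mem hz')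
    rw [← List.map_tail]
    exact List.mem_map_of_mem hz
  · rintro ⟨⟨R, R'⟩, ⟨h1, h2, h3⟩, h⟩
    simp only [Prod.map_apply, Prod.mk.injEq] at h h1 h2 h3
    obtain ⟨rfl, rfl⟩ := h
    refine ⟨?_, ?_, ?_⟩
    · rw [arm_image]; exact ⟨R, h1, rfl⟩
    · rw [arm_image]; exact ⟨R', h2, rfl⟩
    · intro z hz hz'
      simp only at hz hz'
      rw [← List.map_tail] at hz
      obtain ⟨x, hx, rfl⟩ := List.mem_map.1 hz
      obtain ⟨y, hy, hxy⟩ := List.mem_map.1 hz'
      have := emb_inj hxy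
      subst this
      exact h3 _ hx hy

lemma one_div_muL : 1 / muL = xc := by
  rw [muL_eq hw_quant]; rfl

lemma wt_map (R : List (ℤ × ℤ)) : wt (R.map emb) = xc ^ (R.length - 1) := by
  unfold wt
  rw [one_div_muL, List.length_map]

lemma Z_eq (N : ℕ) : Z N = Z1 N := by
  unfold Z
  rw [arm_image, tsum_image (fun w => wt w) map_inj.injOn, ← Z1_tsum]
  exact tsum_congr fun R => wt_map R.1

lemma avoid_sum (N : ℕ) : ∑' q : Avoid N, wt q.1.1 * wt q.1.2 = Z2 N := by
  rw [avoid_image, tsum_image (fun q : List ℂ × List ℂ => wt q.1 * wt q.2)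
    (map_inj.prodMap map_inj).injOn, ← Z2_tsum]
  refine tsum_congr fun q => ?_
  simp only [Prod.map_fst, Prod.map_snd, wt_map]

lemma arg_omega : Complex.arg omega = Real.pi / 3 := by
  unfold omega
  have h : (Real.pi / 3 * Complex.I : ℂ) = ((Real.pi / 3 : ℝ) : ℂ) * Complex.I := by push_cast; ring
  rw [← Complex.log_im, Complex.log_exp]
  · rw [h, Complex.im_ofReal_mul, Complex.I_im, mul_one]
  · rw [h]; simp; linarith [Real.pi_pos]
  · rw [h]; simp; linarith [Real.pi_pos]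

lemma arg_omega_inv : Complex.arg omega⁻¹ = -(Real.pi / 3) := by
  rw [Complex.arg_inv, arg_omega, if_neg]
  intro h
  have := Real.pi_pos
  linarith

lemma turn_map : ∀ {R : List (ℤ × ℤ)}, HChain R → NB R → turn (R.map emb) = -(Real.pi / 3) * Tn R
  | [], _, _ => by simp [turn]
  | [x], _, _ => by simp [turn]
  | [x, y], _, _ => by simp [turn]
  | u :: v :: w :: r, hc, hn => by
    obtain ⟨h1, h2⟩ := List.isChain_cons_cons.1 hc
    obtain ⟨h3, h4⟩ := List.isChain_cons_cons.1 h2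
    have ih := turn_map h2 hn.2
    simp only [List.map_cons, turn, Tn_cons_cons_cons] at ih ⊢
    rw [ih]
    have hd := dl_LR h3.2.2
    have hne : emb (v - w) ≠ 0 := by
      intro h
      have h5 : v - w = o := emb_inj (by rw [h, emb_o])
      have h6 := h3.2.2.nz
      rw [h5] at h6
      simp [NZ, o] at h6
    have e1 : emb w - emb v = - emb (v - w) := by rw [← emb_sub]; ring
    have e2 : emb v - emb u = - emb (u - v) := by rw [← emb_sub]; ring
    have hω := omega_ne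
    rcases hex_nbr h1 h3 hn.1 with h | h
    · have e3 : (emb w - emb v) / (emb v - emb u) = omega⁻¹ := by
        rw [e1, e2, h, emb_L]
        field_simp
      rw [e3, arg_omega_inv, h, hd.1]
      push_cast
      ring
    · have e4 := emb_R (v - w)
      have hR : emb (R (v - w)) ≠ 0 := by
        intro h0
        rw [h0, zero_mul] at e4
        exact hne e4.symm
      have e3 : (emb w - emb v) / (emb v - emb u) = omega := by
        rw [e1, e2, h, ← e4]
        field_simp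
      rw [e3, arg_omega, h, hd.2]
      push_cast
      ring

lemma U_eq (N : ℕ) : ∑' w : Arm N, wt w * Real.cos (3 / 8 * turn w) = U1 N := by
  rw [arm_image, tsum_image (fun w => wt w * Real.cos (3 / 8 * turn w)) map_inj.injOn, ← U1_tsum]
  refine tsum_congr fun R => ?_
  rw [wt_map, turn_map R.2.2.1 (NB_of_nodup R.2.2.2.1)]
  congr 1
  rw [← Real.cos_neg]
  congr 1
  ring

lemma arm_finite (N : ℕ) : (Arm N).Finite := by
  have h : ArmZ N = ↑(armAll N) := by ext R; exact mem_armAll.symm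
  rw [arm_image, h]
  exact (Finset.finite_toSet _).image _

/-- Main theorem. -/
theorem main : ∃ C : ℝ, 0 < C ∧ ∀ N : ℕ, 1 ≤ N → (Arm N).Finite ∧ 0 < Z N ∧ E N / Z N ≤ Prob N ∧
    Real.cos (3 * Real.pi / 8) * Prob N ≤ E N / Z N ∧ Prob N ≤ C * (N : ℝ) ^ (-(1 / 131) : ℝ) := by
  obtain ⟨c, hc, hZ⟩ := Z1_growth
  have hcos : 0 < Real.cos (3 * Real.pi / 8) := by
    apply Real.cos_pos_of_mem_Ioo
    constructor <;> linarith [Real.pi_pos]
  refine ⟨1 / (Real.cos (3 * Real.pi / 8) * c), by positivity, fun N hN => ?_⟩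
  have hz : 0 < Z1 N := lt_of_lt_of_le (by positivity) (hZ N)
  obtain ⟨h1, h2⟩ := compare N
  have h3 := U1_le N
  have hE : E N = U1 N / Z1 N := by unfold E; rw [U_eq, Z_eq]
  have hP : Prob N = Z2 N / (Z1 N * Z1 N) := by unfold Prob; rw [avoid_sum, Z_eq]
  have hEZ : E N / Z N = U1 N / (Z1 N * Z1 N) := by rw [hE, Z_eq, div_div]
  refine ⟨arm_finite N, by rw [Z_eq]; exact hz, ?_, ?_, ?_⟩
  · rw [hEZ, hP]
    exact div_le_div_of_nonneg_right h2 (by positivity)
  · rw [hEZ, hP, ← mul_div_assoc]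
    exact div_le_div_of_nonneg_right h1 (by positivity)
  · have hN0 : (0 : ℝ) < N := by exact_mod_cast hN
    have h4 : c * (N : ℝ) ^ (1 / 131 : ℝ) ≤ Z1 N := by
      refine le_trans (mul_le_mul_of_nonneg_left ?_ hc.le) (hZ N)
      exact Real.rpow_le_rpow hN0.le (by linarith) (by norm_num)
    have h5 : Real.cos (3 * Real.pi / 8) * Z2 N ≤ Z1 N := h1.trans h3
    rw [hP, Real.rpow_neg hN0.le, div_le_iff₀ (by positivity)]
    have h6 : 0 < (N : ℝ) ^ (1 / 131 : ℝ) := Real.rpow_pos_of_pos hN0 _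
    have h7 : Z2 N ≤ Z1 N / Real.cos (3 * Real.pi / 8) := by
      rw [le_div_iff₀ hcos]; linarith
    refine h7.trans ?_
    have h8 : 1 / (Real.cos (3 * Real.pi / 8) * c) * ((N : ℝ) ^ (1 / 131 : ℝ))⁻¹ * (Z1 N * Z1 N) =
        Z1 N / Real.cos (3 * Real.pi / 8) * (Z1 N / (c * (N : ℝ) ^ (1 / 131 : ℝ))) := by
      field_simp
    rw [h8]
    have h9 : 1 ≤ Z1 N / (c * (N : ℝ) ^ (1 / 131 : ℝ)) := by
      rw [le_div_iff₀ (by positivity)]; linarith
    have h10 : 0 ≤ Z1 N / Real.cos (3 * Real.pi / 8) := by positivity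
    nlinarith

end Pool.Agent.RTA
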