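import Pool.Agent.Hhelper14.SAW.Exit

/-!
Self-avoiding walks in a finite domain `p` of the honeycomb lattice started on a boundary edge `s' -> s`
(`s'` outside), as lists of vertices (latest first), and the class of the walks that have visited a marked
vertex `z`.  Reversal of the loop closed by a self-hit.
-/

namespace Pool.Agent.RTA

open Pool.Agent.Hhelper14.SAW

/-- A domain with a boundary edge: one of the six sectors seen from `s'` contains no point of `p`. -/
structure Bd (p : ℤ × ℤ → Prop) (s s' : ℤ × ℤ) : Prop where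
  start : p s
  out : ¬ p s'
  adj : Adj s s'
  hon : ∀ x, p x → hon x
  win : ∃ m : ℤ, ∀ x, p x → (sec (x - s') - m) % 6 ≤ 4

/-- A self-avoiding walk with `n` steps after the first vertex `s`, latest vertex first. -/
def IsW (p : ℤ × ℤ → Prop) (s s' : ℤ × ℤ) (n : ℕ) (P : List (ℤ × ℤ)) : Prop :=
  P.length = n + 2 ∧ P.Nodup ∧ HChain P ∧ ∃ t, P = t ++ [s, s'] ∧ ∀ x ∈ t ++ [s], p x

variable {p : ℤ × ℤ → Prop} {s s' : ℤ × ℤ}

lemma IsW.cases {n : ℕ} {P : List (ℤ × ℤ)} (h : IsW p s s' n P) :
    ∃ v w r, P = v :: w :: r ∧ Adj v w ∧ p v := by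
  obtain ⟨hl, hN, hC, t, ht, hp⟩ := h
  match P, hl with
  | v :: w :: r, _ =>
    refine ⟨v, w, r, rfl, (List.isChain_cons_cons.1 hC).1, ?_⟩
    cases t with
    | nil =>
      simp only [List.nil_append, List.cons.injEq] at ht
      rw [ht.1]; exact hp s (by simp)
    | cons a t =>
      simp only [List.cons_append, List.cons.injEq] at ht
      rw [ht.1]; exact hp a (by simp)

lemma isW_zero (hp : Bd p s s') : IsW p s s' 0 [s, s'] := by
  refine ⟨rfl, ?_, ?_, [], rfl, ?_⟩
  · simp only [List.nodup_cons, List.mem_singleton, List.not_mem_nil, not_false_eq_true, List.nodup_nil,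
      and_true]
    intro e
    exact hp.out (e ▸ hp.start)
  · exact List.isChain_cons_cons.2 ⟨hp.adj, by simp⟩
  · intro x hx
    simp only [List.nil_append, List.mem_singleton] at hx
    rw [hx]; exact hp.start

lemma isW_zero_iff (hp : Bd p s s') {P : List (ℤ × ℤ)} : IsW p s s' 0 P ↔ P = [s, s'] := by
  constructor
  · rintro ⟨hl, -, -, t, ht, -⟩
    have : t = [] := by
      rw [ht] at hl
      simp at hl
      exact hl
    rw [ht, this]; rfl
  · rintro rfl; exact isW_zero hp

lemma IsW.tail {n : ℕ} {u : ℤ × ℤ} {P : List (ℤ × ℤ)} (h : IsW p s s' (n + 1) (u :: P)) :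
    IsW p s s' n P ∧ p u ∧ u ∉ P := by
  obtain ⟨hl, hN, hC, t, ht, hp⟩ := h
  cases t with
  | nil =>
    rw [ht] at hl
    simp at hl
  | cons a t =>
    simp only [List.cons_append, List.cons.injEq] at ht
    obtain ⟨rfl, ht⟩ := ht
    refine ⟨⟨by simpa using hl, (List.nodup_cons.1 hN).2, ?_, t, ht, ?_⟩, hp u (by simp), (List.nodup_cons.1 hN).1⟩
    · exact hC.tail
    · intro x hx; exact hp x (by simp only [List.cons_append, List.mem_cons]; exact Or.inr hx)

lemma IsW.cons {n : ℕ} {u v w : ℤ × ℤ} {r : List (ℤ × ℤ)} (h : IsW p s s' n (v :: w :: r))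
    (hadj : Adj u v) (hpu : p u) (hu : u ∉ v :: w :: r) : IsW p s s' (n + 1) (u :: v :: w :: r) := by
  obtain ⟨hl, hN, hC, t, ht, hp⟩ := h
  refine ⟨by simpa using hl, List.nodup_cons.2 ⟨hu, hN⟩, List.isChain_cons_cons.2 ⟨hadj, hC⟩, u :: t, by rw [ht]; rfl, ?_⟩
  intro x hx
  simp only [List.cons_append, List.mem_cons] at hx
  rcases hx with rfl | hx
  · exact hpu
  · exact hp x hx

lemma isW_succ_iff {n : ℕ} {Q : List (ℤ × ℤ)} : IsW p s s' (n + 1) Q ↔
    ∃ u v w r, Q = u :: v :: w :: r ∧ IsW p s s' n (v :: w :: r) ∧ Adj u v ∧ p u ∧ u ∉ v :: w :: r := by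
  constructor
  · intro h
    match Q, h with
    | u :: P, h =>
      have h1 := h.tail
      obtain ⟨v, w, r, rfl, -, -⟩ := h1.1.cases
      exact ⟨u, v, w, r, rfl, h1.1, (List.isChain_cons_cons.1 h.2.2.1).1, h1.2.1, h1.2.2⟩
    | [], h => simp [IsW] at h
  · rintro ⟨u, v, w, r, rfl, h1, h2, h3, h4⟩
    exact h1.cons h2 h3 h4

/-- Candidates for one more step. -/
def IsC (p : ℤ × ℤ → Prop) (s s' : ℤ × ℤ) (n : ℕ) (Q : List (ℤ × ℤ)) : Prop :=
  ∃ u v w r, Q = u :: v :: w :: r ∧ IsW p s s' n (v :: w :: r) ∧ Adj u v ∧ u ≠ w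

section fin
variable (p) (s s') [DecidablePred p]

/-- The finite set of self-avoiding walks with `n` steps. -/
def sw : ℕ → Finset (List (ℤ × ℤ))
  | 0 => {[s, s']}
  | n + 1 => ((sw n).biUnion exts).filter (fun Q => p (Q.headI) ∧ Q.headI ∉ Q.tail)

/-- All candidates. -/
def cn (n : ℕ) : Finset (List (ℤ × ℤ)) := (sw p s s' n).biUnion exts

lemma sw_succ (n : ℕ) : sw p s s' (n + 1) =
    (cn p s s' n).filter (fun Q => p (Q.headI) ∧ Q.headI ∉ Q.tail) := rfl

variable {p} {s} {s'}

lemma mem_cn_of (n : ℕ) (hs : ∀ P, P ∈ sw p s s' n ↔ IsW p s s' n P) {Q : List (ℤ × ℤ)} :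
    Q ∈ cn p s s' n ↔ IsC p s s' n Q := by
  unfold cn
  rw [Finset.mem_biUnion]
  constructor
  · rintro ⟨P, hP, hQ⟩
    rw [hs] at hP
    obtain ⟨u, v, w, r, rfl, rfl, h⟩ := mem_exts.1 hQ
    have hvw := (List.isChain_cons_cons.1 hP.2.2.1).1
    have := adj_LR hvw h
    exact ⟨u, v, w, r, rfl, hP, this.1, this.2⟩
  · rintro ⟨u, v, w, r, rfl, hP, h1, h2⟩
    refine ⟨v :: w :: r, (hs _).2 hP, mem_exts.2 ⟨u, v, w, r, rfl, rfl, ?_⟩⟩
    exact hex_nbr h1 (List.isChain_cons_cons.1 hP.2.2.1).1 h2

lemma mem_sw (hp : Bd p s s') (n : ℕ) : ∀ P, P ∈ sw p s s' n ↔ IsW p s s' n P := by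
  induction n with
  | zero => intro P; rw [isW_zero_iff hp]; simp [sw]
  | succ n ih =>
    intro Q
    rw [sw_succ, Finset.mem_filter, mem_cn_of n ih, isW_succ_iff]
    constructor
    · rintro ⟨⟨u, v, w, r, rfl, hP, h1, h2⟩, h3, h4⟩
      exact ⟨u, v, w, r, rfl, hP, h1, h3, h4⟩
    · rintro ⟨u, v, w, r, rfl, hP, h1, h3, h4⟩
      exact ⟨⟨u, v, w, r, rfl, hP, h1, fun e => h4 (by simp [e])⟩, h3, h4⟩

lemma mem_cn (hp : Bd p s s') {n : ℕ} {Q : List (ℤ × ℤ)} : Q ∈ cn p s s' n ↔ IsC p s s' n Q :=
  mem_cn_of n (mem_sw hp n)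

end fin

/-- The turning of a walk that closes a loop at `u` (arriving first from `q`). The loop does not wind
around the start `s'`. -/
lemma self_hit' {u h x q : ℤ × ℤ} {r rest : List (ℤ × ℤ)} (s' : ℤ × ℤ)
    (hH : HChain (u :: h :: (x :: r ++ u :: q :: rest)))
    (hN : (h :: (x :: r ++ u :: q :: rest)).Nodup)
    (hlast : (q :: rest).getLast (by simp) = s')
    (hz : Th s' (u :: (h :: (x :: r ++ [u]))) = 0) :
    Tn (u :: h :: (x :: r ++ u :: q :: rest)) = Tn (u :: q :: rest) -
      4 * dl (u - q) ((x :: r).getLast (by simp) - u) := by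
  set a := (x :: r).getLast (by simp) with ha
  have hdl : x :: r = (x :: r).dropLast ++ [a] := by rw [ha]; exact (List.dropLast_append_getLast _).symm
  have ha_mem : a ∈ x :: r := by rw [ha]; exact List.getLast_mem _
  have hsplit : u :: h :: (x :: r ++ u :: q :: rest) =
      (u :: h :: (x :: r).dropLast) ++ a :: u :: (q :: rest) := by
    conv_lhs => rw [hdl]
    simp
  have hloop : u :: h :: (x :: r ++ [u]) = (u :: h :: (x :: r).dropLast) ++ [a, u] := by
    conv_lhs => rw [hdl]
    simp
  have hH1 : HChain (u :: h :: (x :: r ++ [u])) := by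
    have : HChain ((u :: h :: (x :: r ++ [u])) ++ (q :: rest)) := by simpa using hH
    exact (List.isChain_append.1 this).1
  have hH2 : HChain (a :: u :: q :: rest) := by
    rw [hsplit] at hH
    exact (List.isChain_append.1 hH).2.1
  have hNl : (h :: (x :: r ++ [u])).Nodup := by
    have : ((h :: (x :: r ++ [u])) ++ (q :: rest)).Nodup := by simpa using hN
    exact (List.nodup_append.1 this).1
  have hau := (List.isChain_cons_cons.1 hH2).1
  have hup := (List.isChain_cons_cons.1 (List.isChain_cons_cons.1 hH2).2).1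
  have huh := (List.isChain_cons_cons.1 hH1).1
  have hdisj : ∀ y ∈ h :: (x :: r ++ [u]), ∀ z ∈ q :: rest, y ≠ z := by
    have : ((h :: (x :: r ++ [u])) ++ (q :: rest)).Nodup := by simpa using hN
    have h3 := (List.nodup_append.1 this).2.2
    intro y hy z hz
    exact h3 y hy z hz
  have hap : a ≠ q := hdisj a (by
    refine List.mem_cons_of_mem _ (List.mem_append_left _ ha_mem)) q (by simp)
  have hhp : h ≠ q := hdisj h (by simp) q (by simp)
  have hha : h ≠ a := by
    intro e
    have := (List.nodup_cons.1 hNl).1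
    exact this (by rw [e]; exact List.mem_append_left _ ha_mem)
  have hhu : h ≠ u := by
    intro e
    have := (List.nodup_cons.1 hNl).1
    exact this (by rw [e]; simp)
  have hNB : NB (u :: h :: (x :: r ++ [u])) := by
    refine ⟨?_, NB_of_nodup hNl⟩
    intro e
    have h6 := (List.nodup_cons.1 hNl).2
    have := List.nodup_append.1 h6
    exact this.2.2 x (by simp) u (by simp) e.symm
  have hT : TChain (u :: h :: (x :: r ++ [u])) := tchain_of hH1 hNB
  have hK := loopK hT hNl
  rw [← ha] at hK
  -- total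
  rw [hsplit, Tn_append, ← hloop, hK, Tn_cons_cons_cons]
  -- directions
  have f1 := hex_nbr hau hup hap
  have g1 := hex_nbr huh.symm hup hhp
  have hne : a - u ≠ h - u := fun e => hha (by
    have := congrArg (· + u) e
    simpa using this.symm)
  -- view from q
  have hchl : UChain (h :: x :: r) := by
    have h7 : HChain (h :: x :: (r ++ [u])) := (List.isChain_cons_cons.1 hH1).2
    have h8 : HChain ((h :: x :: r) ++ [u]) := by simpa using h7
    exact HChain.U (List.isChain_append.1 h8).1
  have hp_not : q ∉ h :: x :: r := by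
    intro hm
    exact hdisj q (by
      rcases List.mem_cons.1 hm with e | hm
      · rw [e]; simp
      · exact List.mem_cons_of_mem _ (List.mem_append_left _ hm)) q (by simp) rfl
  have hu_not : u ∉ h :: x :: r := by
    intro hm
    have h8 : ((h :: x :: r) ++ [u]).Nodup := by simpa using hNl
    exact (List.nodup_append.1 h8).2.2 u hm u (by simp) rfl
  have cv := Th_change (p := u) (q := q) hup.2.2 (x :: r) h hchl hu_not hp_not
  rw [List.getLast_cons_cons, ← ha] at cv
  -- closed loop
  have hCchain : UChain (u :: (h :: (x :: r ++ [u]))) := HChain.U hH1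
  have hClast : (u :: (h :: (x :: r ++ [u]))).getLast (by simp) = u := by simp
  have hWchain : UChain (q :: rest) := HChain.U (List.isChain_cons_cons.1 (List.isChain_cons_cons.1 hH2).2).2
  have hWnot : ∀ y ∈ q :: rest, y ∉ u :: (h :: (x :: r ++ [u])) := by
    intro y hy hm
    rcases List.mem_cons.1 hm with e | hm
    · exact hdisj u (by simp) y hy e.symm
    · exact hdisj y hm y hy rfl
  have mv := closed_move hCchain hClast rest q hWchain hWnot
  rw [hlast] at mv
  rw [hz, closed_Th, ← ha] at mv
  -- arithmetic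
  have hfg : (a - u = L (u - q) ∧ h - u = R (u - q)) ∨ (a - u = R (u - q) ∧ h - u = L (u - q)) := by
    rcases f1 with f1 | f1 <;> rcases g1 with g1 | g1
    · exact absurd (f1.trans g1.symm) hne
    · exact Or.inl ⟨f1, g1⟩
    · exact Or.inr ⟨f1, g1⟩
    · exact absurd (f1.trans g1.symm) hne
  have ar := loop_arith hup.2.2 hfg
  have r1 : (a - u) + (u - q) = a - q := by ring
  have r2 : (h - u) + (u - q) = h - q := by ring
  have r3 : (a - u) - (h - u) = a - h := by ring
  have r4 : -(h - u) = u - h := by ring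
  rw [r1, r2, r3, r4] at ar
  linarith

/-- Structure of self-hits. -/
lemma hit_struct (hp : Bd p s s') {n : ℕ} {Q : List (ℤ × ℤ)} (hQ : IsC p s s' n Q) (hh : p Q.headI)
    (hm : Q.headI ∈ Q.tail) :
    ∃ u h x r q rest, Q = u :: h :: (x :: r ++ u :: q :: rest) ∧
      (h :: (x :: r ++ u :: q :: rest)).Nodup ∧ HChain Q ∧
      (q :: rest).getLast (by simp) = s' ∧ (∀ y ∈ u :: h :: x :: r, p y) ∧
      IsW p s s' n (h :: (x :: r ++ u :: q :: rest)) := by
  obtain ⟨u, v, w, r0, rfl, hP, hadj, huw⟩ := hQ
  simp only [List.headI_cons, List.tail_cons] at hh hm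
  have huv : u ≠ v := by
    rintro rfl
    have := hadj.2.2.nz
    simp [NZ] at this
  have hm2 : u ∈ r0 := by
    simp only [List.mem_cons] at hm
    tauto
  obtain ⟨l, t, rfl⟩ := List.append_of_mem hm2
  obtain ⟨hl, hN, hC, t0, ht0, hpt⟩ := hP
  -- t nonempty
  have hlast : (v :: w :: (l ++ u :: t)).getLast (by simp) = s' := by
    simp only [ht0]; simp
  have htne : t ≠ [] := by
    rintro rfl
    have : (v :: w :: (l ++ [u])).getLast (by simp) = u := by simp
    rw [this] at hlast
    exact hp.out (hlast ▸ hh)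
  obtain ⟨q, rest, rfl⟩ := List.exists_cons_of_ne_nil htne
  have hlast2 : (q :: rest).getLast (by simp) = s' := by
    rw [← hlast]; simp
  refine ⟨u, v, w, l, q, rest, by simp, by simpa using hN, ?_, hlast2, ?_, ⟨by simpa using hl, by simpa using hN, by simpa using hC, t0, by simpa using ht0, hpt⟩⟩
  · exact List.isChain_cons_cons.2 ⟨hadj, hC⟩
  · -- all in p
    intro y hy
    have hy' : y ∈ v :: w :: (l ++ u :: q :: rest) := by
      simp only [List.mem_cons, List.mem_append] at hy ⊢
      tauto
    have hyo : y ≠ s' := by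
      rintro rfl
      simp only [List.mem_cons] at hy
      have hu' : u ≠ y := by
        rintro rfl; exact hp.out hh
      have ho'mem : y ∈ q :: rest := by rw [← hlast2]; exact List.getLast_mem _
      have hN2 : ((v :: w :: l) ++ (u :: q :: rest)).Nodup := by simpa using hN
      have hd := (List.nodup_append.1 hN2).2.2
      have : y ∈ v :: w :: l := by
        simp only [List.mem_cons]
        rcases hy with h | h | h | h
        · exact absurd h.symm hu'
        · exact Or.inl h
        · exact Or.inr (Or.inl h)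
        · exact Or.inr (Or.inr h)
      exact hd y this y (List.mem_cons_of_mem _ ho'mem) rfl
    rw [ht0] at hy'
    simp only [List.mem_append, List.mem_cons, List.not_mem_nil, or_false] at hy'
    rcases hy' with h | h | h
    · exact hpt y (by simp [h])
    · exact hpt y (by simp [h])
    · exact absurd h hyo

/-- A closed loop of the domain has angle zero seen from `s'`. -/
lemma loop_zero (hp : Bd p s s') {u : ℤ × ℤ} {C : List (ℤ × ℤ)} (hC : UChain (u :: C))
    (hlast : (u :: C).getLast (by simp) = u) (hy : ∀ y ∈ u :: C, p y) : Th s' (u :: C) = 0 := by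
  obtain ⟨m, hm⟩ := hp.win
  have := Th_window m s' C u hC (fun y h => ⟨nz_of_ne (by rintro rfl; exact hp.out (hy _ h)), hm y (hy y h)⟩)
  rw [this, hlast]; ring

lemma flip_spec' (hp : Bd p s s') {n : ℕ} {Q : List (ℤ × ℤ)} (hQ : IsC p s s' n Q) (hh : p Q.headI)
    (hm : Q.headI ∈ Q.tail) :
    IsC p s s' n (flip Q) ∧ p (flip Q).headI ∧ (flip Q).headI ∈ (flip Q).tail ∧ flip (flip Q) = Q ∧
      (∀ z, z ∈ (flip Q).tail ↔ z ∈ Q.tail) ∧ zt (Tn Q) + zt (Tn (flip Q)) = 0 := by
  obtain ⟨u, h, x, r, q, rest, rfl, hN, hH, hlast, hpy, hS⟩ := hit_struct hp hQ hh hm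
  simp only [List.headI_cons, List.tail_cons] at hh hm
  have hul : u ∉ h :: x :: r := by
    have : ((h :: x :: r) ++ (u :: q :: rest)).Nodup := by simpa using hN
    have hd := (List.nodup_append.1 this).2.2
    intro hu; exact hd u hu u (by simp) rfl
  have hflip : flip (u :: h :: (x :: r ++ u :: q :: rest)) =
      u :: ((h :: x :: r).reverse ++ u :: q :: rest) := by
    have := flip_eq (t := q :: rest) hul
    simpa using this
  -- the reversed loop
  obtain ⟨h2, x2, r2, hrev⟩ : ∃ h2 x2 r2, (h :: x :: r).reverse = h2 :: x2 :: r2 := by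
    have hlen : (h :: x :: r).reverse.length = r.length + 2 := by simp
    match hR : (h :: x :: r).reverse, hlen with
    | a :: b :: c, _ => exact ⟨a, b, c, rfl⟩
  have hlast_rev : (x2 :: r2).getLast (by simp) = h := by
    have h1 : (h2 :: x2 :: r2).getLast (by simp) = h := by
      simp only [← hrev]; simp
    rw [← h1, List.getLast_cons_cons]
  have hh2 : h2 = (x :: r).getLast (by simp) := by
    have h1 : (h2 :: x2 :: r2).head (by simp) = (h :: x :: r).getLast (by simp) := by
      simp only [← hrev]; rw [List.head_reverse]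
    rw [List.getLast_cons_cons] at h1
    simpa using h1
  set a := (x :: r).getLast (by simp) with ha
  have hdl : x :: r = (x :: r).dropLast ++ [a] := by rw [ha]; exact (List.dropLast_append_getLast _).symm
  have ha_mem : a ∈ x :: r := by rw [ha]; exact List.getLast_mem _
  have hau : Adj a u := by
    have : u :: h :: (x :: r ++ u :: q :: rest) =
      (u :: h :: (x :: r).dropLast) ++ a :: u :: (q :: rest) := by
      conv_lhs => rw [hdl]
      simp
    rw [this] at hH
    exact (List.isChain_cons_cons.1 (List.isChain_append.1 hH).2.1).1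
  have huq : Adj u q := by
    have : u :: h :: (x :: r ++ u :: q :: rest) = (u :: h :: x :: r) ++ (u :: q :: rest) := by simp
    rw [this] at hH
    exact (List.isChain_cons_cons.1 (List.isChain_append.1 hH).2.1).1
  have hHl : HChain (u :: q :: rest) := by
    have : u :: h :: (x :: r ++ u :: q :: rest) = (u :: h :: x :: r) ++ (u :: q :: rest) := by simp
    rw [this] at hH
    exact (List.isChain_append.1 hH).2.1
  have huh : Adj u h := (List.isChain_cons_cons.1 hH).1
  have hHloop : HChain (h :: x :: r) := by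
    have : u :: h :: (x :: r ++ u :: q :: rest) = [u] ++ ((h :: x :: r) ++ (u :: q :: rest)) := by simp
    rw [this] at hH
    exact (List.isChain_append.1 (List.isChain_append.1 hH).2.1).1
  have hHrev : HChain (h2 :: x2 :: r2) := by
    rw [← hrev]
    exact List.isChain_reverse.2 (List.IsChain.imp (fun _ _ hh => hh.symm) hHloop)
  have hmem_rev : ∀ y, y ∈ h2 :: x2 :: r2 ↔ y ∈ h :: x :: r := by
    intro y; rw [← hrev]; exact List.mem_reverse
  have hNrev : ((h2 :: x2 :: r2) ++ (u :: q :: rest)).Nodup := by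
    have h0 : ((h :: x :: r) ++ (u :: q :: rest)).Nodup := by simpa using hN
    have h1 := List.nodup_append.1 h0
    rw [List.nodup_append]
    refine ⟨?_, h1.2.1, ?_⟩
    · rw [← hrev]; exact List.nodup_reverse.2 h1.1
    · intro y hy z hz
      exact h1.2.2 y ((hmem_rev y).1 hy) z hz
  have hHcat : HChain ((h2 :: x2 :: r2) ++ (u :: q :: rest)) := by
    refine List.isChain_append.2 ⟨hHrev, hHl, ?_⟩
    intro y hy z hz
    have hy' : y = h := by
      have : (h2 :: x2 :: r2).getLast? = some h := by
        rw [← hrev]; simp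
      rw [this] at hy
      simpa using hy.symm
    have hz' : z = u := by simpa using hz.symm
    rw [hy', hz']; exact huh.symm
  have hS' : IsW p s s' n ((h2 :: x2 :: r2) ++ (u :: q :: rest)) := by
    obtain ⟨hl, -, -, t0, ht0, hpt⟩ := hS
    have ht0' : (h :: x :: r) ++ (u :: q :: rest) = t0 ++ [s, s'] := by simpa using ht0
    obtain ⟨t1, ht1, ht01⟩ : ∃ t1, u :: q :: rest = t1 ++ [s, s'] ∧ t0 = (h :: x :: r) ++ t1 := by
      rcases List.append_eq_append_iff.1 ht0' with ⟨c, hc1, hc2⟩ | ⟨c, hc1, hc2⟩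
      · exact ⟨c, hc2, hc1⟩
      · have hc : c = [] := by
          have := congrArg List.length hc2
          simp at this
          exact List.length_eq_zero_iff.1 (by omega)
        subst hc
        exact ⟨[], by simpa using hc2.symm, by simpa using hc1.symm⟩
    refine ⟨?_, hNrev, hHcat, (h2 :: x2 :: r2) ++ t1, ?_, ?_⟩
    · rw [← hrev]
      simp at hl ⊢
      omega
    · rw [ht1]; simp
    · intro y hy
      simp only [List.append_assoc, List.mem_append] at hy
      rcases hy with hy | hy
      · exact hpy y (by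
          have := (hmem_rev y).1 hy
          exact List.mem_cons_of_mem _ this)
      · apply hpt
        rw [ht01]
        simp only [List.append_assoc, List.mem_append]
        exact Or.inr hy
  have hh2u : Adj u h2 := by rw [hh2]; exact hau.symm
  have hux2 : u ≠ x2 := by
    rintro rfl
    exact hul ((hmem_rev _).1 (by simp))
  have hcand' : IsC p s s' n (u :: h2 :: (x2 :: r2 ++ u :: q :: rest)) :=
    ⟨u, h2, x2, r2 ++ u :: q :: rest, by simp, by simpa using hS', hh2u, hux2⟩
  have hfl2 : flip (u :: h2 :: (x2 :: r2 ++ u :: q :: rest)) = u :: h :: (x :: r ++ u :: q :: rest) := by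
    have hul2 : u ∉ h2 :: x2 :: r2 := fun hm => hul ((hmem_rev _).1 hm)
    have h5 := flip_eq (t := q :: rest) hul2
    have h6 : (h2 :: x2 :: r2).reverse = h :: x :: r := by rw [← hrev, List.reverse_reverse]
    rw [h6] at h5
    simpa using h5
  have hform : flip (u :: h :: (x :: r ++ u :: q :: rest)) = u :: h2 :: (x2 :: r2 ++ u :: q :: rest) := by
    rw [hflip, hrev]; simp
  rw [hform]
  refine ⟨hcand', hh, by simp, hfl2, ?_, ?_⟩
  · intro z
    have h1 : z ∈ (h2 :: x2 :: r2) ++ (u :: q :: rest) ↔ z ∈ (h :: x :: r) ++ (u :: q :: rest) := by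
      rw [List.mem_append, List.mem_append, hmem_rev]
    simpa using h1
  -- phases
  have hU1 : UChain (u :: (h :: (x :: r ++ [u]))) := by
    have : HChain ((u :: (h :: (x :: r ++ [u]))) ++ (q :: rest)) := by simpa using hH
    exact HChain.U (List.isChain_append.1 this).1
  have hz1 : Th s' (u :: (h :: (x :: r ++ [u]))) = 0 := by
    refine loop_zero hp hU1 (by simp) ?_
    intro y hy
    apply hpy
    simp only [List.mem_cons, List.mem_append, List.not_mem_nil, or_false] at hy ⊢
    tauto
  have k1 := self_hit' s' hH hN hlast hz1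
  have hH2 : HChain (u :: h2 :: (x2 :: r2 ++ u :: q :: rest)) := by
    refine List.isChain_cons_cons.2 ⟨hh2u, ?_⟩
    simpa using hHcat
  have hN2 : (h2 :: (x2 :: r2 ++ u :: q :: rest)).Nodup := by simpa using hNrev
  have hU2 : UChain (u :: (h2 :: (x2 :: r2 ++ [u]))) := by
    have : HChain ((u :: (h2 :: (x2 :: r2 ++ [u]))) ++ (q :: rest)) := by simpa using hH2
    exact HChain.U (List.isChain_append.1 this).1
  have hz2 : Th s' (u :: (h2 :: (x2 :: r2 ++ [u]))) = 0 := by
    refine loop_zero hp hU2 (by simp) ?_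
    intro y hy
    have hy' : y = u ∨ y ∈ h2 :: x2 :: r2 := by
      simp only [List.mem_cons, List.mem_append, List.not_mem_nil, or_false] at hy ⊢
      tauto
    rcases hy' with e | hy'
    · rw [e]; exact hh
    · exact hpy y (List.mem_cons_of_mem _ ((hmem_rev y).1 hy'))
  have k2 := self_hit' s' hH2 hN2 hlast hz2
  rw [← ha] at k1
  rw [hlast_rev] at k2
  -- directions
  have haq : a ≠ q := by
    have h0 : ((h :: x :: r) ++ (u :: q :: rest)).Nodup := by simpa using hN
    exact (List.nodup_append.1 h0).2.2 a (List.mem_cons_of_mem _ ha_mem) q (by simp)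
  have hhq : h ≠ q := by
    have h0 : ((h :: x :: r) ++ (u :: q :: rest)).Nodup := by simpa using hN
    exact (List.nodup_append.1 h0).2.2 h (by simp) q (by simp)
  have hha : h ≠ a := by
    intro e
    have := (List.nodup_cons.1 hN).1
    exact this (by rw [e]; exact List.mem_append_left _ ha_mem)
  have f1 := hex_nbr hau huq haq
  have g1 := hex_nbr huh.symm huq hhq
  have hLR := dl_LR huq.2.2
  have hne : a - u ≠ h - u := fun e => hha (by
    have := congrArg (· + u) e
    simpa using this.symm)
  rw [k1, k2]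
  rcases f1 with f1 | f1 <;> rcases g1 with g1 | g1
  · exact absurd (f1.trans g1.symm) hne
  · rw [f1, g1, hLR.1, hLR.2]
    have := zt_pair (Tn (u :: q :: rest)) (s := 1) (Or.inl rfl)
    have e1 : Tn (u :: q :: rest) - 4 * (-1) = Tn (u :: q :: rest) + 4 * 1 := by ring
    rw [e1]; exact this
  · rw [f1, g1, hLR.1, hLR.2]
    have := zt_pair (Tn (u :: q :: rest)) (s := -1) (Or.inr rfl)
    have e1 : Tn (u :: q :: rest) - 4 * 1 = Tn (u :: q :: rest) + 4 * (-1) := by ring
    rw [e1]; exact this
  · exact absurd (f1.trans g1.symm) hne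

end Pool.Agent.RTA
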